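import Pool.Agent.Q87.CH.Stm

/-!
# Controlled hyperbolic sets: uniqueness and bound for bounded solutions (helper144)
-/

namespace Pool.Agent.Q87.CH

open Filter Topology

noncomputable section

section

variable {E : Type} [NormedAddCommGroup E] [NormedSpace ℝ E] {K lam : ℝ}
  {T : ℤ → ℤ → (E →L[ℝ] E)} {P : ℤ → (E →L[ℝ] E)}

theorem Dich.pst (D : Dich K lam T P) (t : ℤ) (k : ℕ) (v : E) :
    ‖P t (T t (t - k) v)‖ ≤ K * lam ^ k * ‖v‖ := by
  have h1 := DFunLike.congr_fun (D.comm t (t - k)) v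
  simp only [ContinuousLinearMap.comp_apply] at h1
  rw [← h1]
  have h2 := D.stable (t - k) k v
  rwa [sub_add_cancel] at h2

theorem Dich.ust (D : Dich K lam T P) (t : ℤ) (k : ℕ) (v : E) :
    ‖T t (t + k) v - P t (T t (t + k) v)‖ ≤ K * lam ^ k * ‖v‖ := by
  have h1 := DFunLike.congr_fun (D.comm t (t + k)) v
  simp only [ContinuousLinearMap.comp_apply] at h1
  rw [← h1, ← map_sub]
  have h2 := D.unstable (t + k) k v
  rwa [add_sub_cancel_right] at h2

theorem Dich.cc (D : Dich K lam T P) (r s t : ℤ) (v : E) : T r s (T s t v) = T r t v := by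
  have h1 := DFunLike.congr_fun (D.cocycle r s t) v
  simpa only [ContinuousLinearMap.comp_apply] using h1

theorem Dich.back (D : Dich K lam T P) {h z : ℤ → E} (hz : ∀ t, z (t + 1) = T (t + 1) t (z t) + h t)
    (t : ℤ) (N : ℕ) : z t = T t (t - N) (z (t - N)) +
      ∑ k ∈ Finset.range N, T t (t - k) (h (t - k - 1)) := by
  induction N with
  | zero => simp [D.diag]
  | succ N ih =>
    have h1 := hz (t - N - 1)
    rw [sub_add_cancel] at h1
    rw [Finset.sum_range_succ]
    have e1 : t - ((N + 1 : ℕ) : ℤ) = t - N - 1 := by push_cast; ring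
    rw [e1]
    rw [h1, map_add, D.cc] at ih
    rw [ih]
    abel

theorem Dich.forw (D : Dich K lam T P) {h z : ℤ → E} (hz : ∀ t, z (t + 1) = T (t + 1) t (z t) + h t)
    (t : ℤ) (N : ℕ) : z t = T t (t + N) (z (t + N)) -
      ∑ k ∈ Finset.range N, T t (t + k + 1) (h (t + k)) := by
  induction N with
  | zero => simp [D.diag]
  | succ N ih =>
    have h1 := hz (t + N)
    rw [Finset.sum_range_succ]
    have e1 : t + ((N + 1 : ℕ) : ℤ) = t + N + 1 := by push_cast; ring
    rw [e1, h1, map_add, D.cc]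
    rw [ih]
    have e2 : z t = T t (t + N) (z (t + N)) - ∑ k ∈ Finset.range N, T t (t + k + 1) (h (t + k)) := ih
    abel

theorem lim_bd {x c R : ℝ} (hl0 : 0 < lam) (hl1 : lam < 1) (h : ∀ N : ℕ, x ≤ K * lam ^ N * R + c) : x ≤ c := by
  have h1 : Tendsto (fun N : ℕ => K * lam ^ N * R + c) atTop (𝓝 (K * 0 * R + c)) :=
    ((((tendsto_pow_atTop_nhds_zero_of_lt_one hl0.le hl1).const_mul K).mul_const R).add_const c)
  rw [mul_zero, zero_mul, zero_add] at h1
  exact ge_of_tendsto' h1 h

theorem geom_bd {B : ℝ} (hK : 0 ≤ K) (hB : 0 ≤ B) (hl0 : 0 < lam) (hl1 : lam < 1) (N : ℕ) :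
    ∑ k ∈ Finset.range N, K * lam ^ k * B ≤ K / (1 - lam) * B := by
  rw [← Finset.sum_mul, ← Finset.mul_sum]
  have h1 : ∑ k ∈ Finset.range N, lam ^ k ≤ 1 / (1 - lam) := by
    rw [geom_sum_eq hl1.ne, ← neg_div_neg_eq]
    have h2 : 0 < 1 - lam := by linarith
    rw [neg_sub, neg_sub, div_le_div_iff_of_pos_right h2]
    have : 0 < lam ^ N := by positivity
    linarith
  have h2 : K * ∑ k ∈ Finset.range N, lam ^ k ≤ K * (1 / (1 - lam)) := mul_le_mul_of_nonneg_left h1 hK
  rw [mul_one_div] at h2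
  exact mul_le_mul_of_nonneg_right h2 hB

end

/-- Uniqueness and bound for bounded solutions. -/
theorem bound : S_bound := by
  intro E _ _ K lam hK hl0 hl1 T P D B R h z hB hR hz t
  have hB0 : 0 ≤ B := (norm_nonneg _).trans (hB 0)
  have h1 : ‖P t (z t)‖ ≤ K / (1 - lam) * B := by
    refine lim_bd (K := K) (R := R) hl0 hl1 fun N => ?_
    rw [D.back hz t N, map_add, map_sum]
    refine (norm_add_le _ _).trans (add_le_add ?_ ?_)
    · refine (D.pst t N _).trans ?_
      exact mul_le_mul_of_nonneg_left (hR _) (by positivity)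
    · refine (norm_sum_le _ _).trans (le_trans (Finset.sum_le_sum fun k _ => ?_) (geom_bd hK hB0 hl0 hl1 N))
      refine (D.pst t k _).trans ?_
      exact mul_le_mul_of_nonneg_left (hB _) (by positivity)
  have h2 : ‖z t - P t (z t)‖ ≤ K / (1 - lam) * B := by
    refine lim_bd (K := K) (R := R) hl0 hl1 fun N => ?_
    have e1 : z t - P t (z t) = (T t (t + N) (z (t + N)) - P t (T t (t + N) (z (t + N)))) -
        ∑ k ∈ Finset.range N, (T t (t + k + 1) (h (t + k)) - P t (T t (t + k + 1) (h (t + k)))) := by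
      have e2 := D.forw hz t N
      have e3 : P t (z t) = P t (T t (t + N) (z (t + N))) -
          ∑ k ∈ Finset.range N, P t (T t (t + k + 1) (h (t + k))) := by
        rw [e2, map_sub, map_sum]
      rw [e3, Finset.sum_sub_distrib]
      nth_rewrite 1 [e2]
      abel
    rw [e1]
    refine (norm_sub_le _ _).trans (add_le_add ?_ ?_)
    · refine (D.ust t N _).trans ?_
      exact mul_le_mul_of_nonneg_left (hR _) (by positivity)
    · refine (norm_sum_le _ _).trans (le_trans (Finset.sum_le_sum fun k _ => ?_) (geom_bd hK hB0 hl0 hl1 N))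
      have h3 := D.ust t (k + 1) (h (t + k))
      have e2 : t + ((k + 1 : ℕ) : ℤ) = t + k + 1 := by push_cast; ring
      rw [e2] at h3
      refine h3.trans ?_
      have h4 : lam ^ (k + 1) ≤ lam ^ k := pow_le_pow_of_le_one hl0.le hl1.le (Nat.le_succ k)
      exact mul_le_mul (mul_le_mul_of_nonneg_left h4 hK) (hB _) (norm_nonneg _) (by positivity)
  have e1 : z t = P t (z t) + (z t - P t (z t)) := by abel
  rw [e1]
  refine (norm_add_le _ _).trans ?_
  have e2 : 2 * K / (1 - lam) * B = K / (1 - lam) * B + K / (1 - lam) * B := by ring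
  rw [e2]
  exact add_le_add h1 h2

end

end Pool.Agent.Q87.CH
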