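import Pool.Agent.Q87.CH.Stm

namespace Pool.Agent.Q87.CH

open scoped Manifold ContDiff Topology
open Bundle Set Filter

noncomputable section

section Basic

variable {E : Type} [NormedAddCommGroup E] [NormedSpace ℝ E] [FiniteDimensional ℝ E] {M : Type} [TopologicalSpace M] [ChartedSpace E M] [IsManifold 𝓘(ℝ, E) ∞ M]

theorem mem_base {m z : M} (hz : z ∈ (chartAt E m).source) :
    z ∈ (trivializationAt E (TangentSpace 𝓘(ℝ, E) (M := M)) m).baseSet := by
  rw [TangentBundle.trivializationAt_baseSet]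
  exact hz

theorem tris_tri {m z : M} (hz : z ∈ (chartAt E m).source) (v : TangentSpace 𝓘(ℝ, E) z) :
    tris E m z (tri E m z v) = v :=
  (trivializationAt E (TangentSpace 𝓘(ℝ, E) (M := M)) m).symmL_continuousLinearMapAt
    (mem_base hz) v

theorem tri_tris {m z : M} (hz : z ∈ (chartAt E m).source) (e : E) :
    tri E m z (tris E m z e) = e :=
  (trivializationAt E (TangentSpace 𝓘(ℝ, E) (M := M)) m).continuousLinearMapAt_symmL
    (mem_base hz) e

theorem rep_id {m z : M} (hz : z ∈ (chartAt E m).source) (g : M → M) (hg : g = id) :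
    rep E m m g z = ContinuousLinearMap.id ℝ E := by
  subst hg
  ext1 e
  unfold rep
  rw [mfderiv_id]
  simp only [ContinuousLinearMap.comp_apply]
  exact tri_tris hz e

theorem rep_comp {m m' m'' z : M} (g h : M → M) (hm : h z ∈ (chartAt E m').source)
    (hh : MDifferentiableAt 𝓘(ℝ, E) 𝓘(ℝ, E) h z) (hg : MDifferentiableAt 𝓘(ℝ, E) 𝓘(ℝ, E) g (h z)) :
    rep E m m'' (fun y => g (h y)) z = (rep E m' m'' g (h z)).comp (rep E m m' h z) := by
  have hc : mfderiv 𝓘(ℝ, E) 𝓘(ℝ, E) (fun y => g (h y)) z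
      = (mfderiv 𝓘(ℝ, E) 𝓘(ℝ, E) g (h z)).comp (mfderiv 𝓘(ℝ, E) 𝓘(ℝ, E) h z) := mfderiv_comp z hg hh
  ext1 e
  unfold rep
  rw [hc]
  simp only [ContinuousLinearMap.comp_apply]
  rw [tris_tri hm]

end Basic

theorem bridge (hbd : S_repbdd) (hsucc : S_phisucc) (hadd : S_phiadd) (hcont : S_phicont) :
    S_bridge := by
  intro E _ _ _ U M _ _ _ _ _ _ _ f hs Q hQ C N ctr L hC
  obtain ⟨K, hK, hKb⟩ := hbd E U M f hs Q hQ.compact C N ctr L hC
  obtain ⟨Em, Ep, hcompl, hH1m, hH1p, ⟨c, lam, hc, hl0, hl1, hH2m, hH2p⟩, -, -⟩ := hQ.splitting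
  have hL1 := hC.one_le
  have hL0 : 0 < L := by linarith
  have hph0 : ∀ (u : ℤ → U) (x : M), phi f 0 x u = x := fun u x => rfl
  have hsrc : ∀ z ∈ Q, z ∈ (chartAt E (ctr z)).source := fun z hz =>
    hC.sub _ (hC.ctr_mem z hz) (hC.ctr_N z hz)
  -- the cocycle in charts
  let TT : ℤ → (ℤ → U) → M → (E →L[ℝ] E) := fun k u z =>
    rep E (ctr z) (ctr (phi f k z u)) (fun y => phi f k y u) z
  let EmC : (ℤ → U) → M → Submodule ℝ E := fun u z =>
    (Em u z).map (tri E (ctr z) z).toLinearMap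
  let EpC : (ℤ → U) → M → Submodule ℝ E := fun u z =>
    (Ep u z).map (tri E (ctr z) z).toLinearMap
  have hLs : ∀ (u : ℤ → U) (x : M), (u, x) ∈ Lift f Q → ∀ t,
      (sh t u, phi f t x u) ∈ Lift f Q := by
    intro u x hx t s
    show phi f s (phi f t x u) (sh t u) ∈ Q
    rw [← hadd E U M f u x s t]
    exact hx (s + t)
  have hLQ : ∀ (u : ℤ → U) (x : M), (u, x) ∈ Lift f Q → x ∈ Q := fun u x hx => hx 0
  have hshsh : ∀ (u : ℤ → U) (a b : ℤ), sh a (sh b u) = sh (a + b) u := by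
    intro u a b
    funext s
    simp only [sh]
    congr 1
    ring
  have Ta : ∀ (u : ℤ → U) (z : M), (u, z) ∈ Lift f Q → TT 0 u z
      = ContinuousLinearMap.id ℝ E := by
    intro u z hz
    exact rep_id (hsrc z (hLQ u z hz)) _ (by funext y; rfl)
  have Tb : ∀ (u : ℤ → U) (z : M), (u, z) ∈ Lift f Q → ∀ a b : ℤ,
      TT (a + b) u z = (TT a (sh b u) (phi f b z u)).comp (TT b u z) := by
    intro u z hz a b
    have hfun : (fun y => phi f (a + b) y u)
        = fun y => phi f a (phi f b y u) (sh b u) := by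
      funext y
      exact hadd E U M f u y a b
    have h1 := rep_comp (m := ctr z) (m' := ctr (phi f b z u))
      (m'' := ctr (phi f a (phi f b z u) (sh b u))) (z := z)
      (fun y => phi f a y (sh b u)) (fun y => phi f b y u)
      (hsrc _ (hLQ _ _ (hLs u z hz b))) ((hcont E U M f hs b).2 u z)
      ((hcont E U M f hs a).2 (sh b u) _)
    show rep E (ctr z) (ctr (phi f (a + b) z u)) (fun y => phi f (a + b) y u) z = _
    rw [hfun, hadd E U M f u z a b]
    exact h1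
  have Tval : ∀ (u : ℤ → U) (z : M), (u, z) ∈ Lift f Q → ∀ (k : ℤ)
      (w : TangentSpace 𝓘(ℝ, E) z), TT k u z (tri E (ctr z) z w)
        = tri E (ctr (phi f k z u)) (phi f k z u)
          (mfderiv 𝓘(ℝ, E) 𝓘(ℝ, E) (fun y => phi f k y u) z w) := by
    intro u z hz k w
    show tri E _ _ (mfderiv 𝓘(ℝ, E) 𝓘(ℝ, E) (fun y => phi f k y u) z
      (tris E (ctr z) z (tri E (ctr z) z w))) = _
    rw [tris_tri (hsrc z (hLQ u z hz))]
  have Tcm : ∀ (u : ℤ → U) (z : M), (u, z) ∈ Lift f Q → ∀ (k : ℤ), ∀ v ∈ EmC u z,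
      TT k u z v ∈ EmC (sh k u) (phi f k z u) := by
    intro u z hz k v hv
    obtain ⟨w, hw, rfl⟩ := hv
    refine ⟨mfderiv 𝓘(ℝ, E) 𝓘(ℝ, E) (fun y => phi f k y u) z w, ?_, (Tval u z hz k w).symm⟩
    rw [← hH1m u z hz k]
    exact ⟨w, hw, rfl⟩
  have Tcp : ∀ (u : ℤ → U) (z : M), (u, z) ∈ Lift f Q → ∀ (k : ℤ), ∀ v ∈ EpC u z,
      TT k u z v ∈ EpC (sh k u) (phi f k z u) := by
    intro u z hz k v hv
    obtain ⟨w, hw, rfl⟩ := hv
    refine ⟨mfderiv 𝓘(ℝ, E) 𝓘(ℝ, E) (fun y => phi f k y u) z w, ?_, (Tval u z hz k w).symm⟩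
    rw [← hH1p u z hz k]
    exact ⟨w, hw, rfl⟩
  have Tnorm : ∀ (u : ℤ → U) (z : M), (u, z) ∈ Lift f Q → ∀ (k : ℤ) (B : ℝ), 0 ≤ B → ∀
      (w : TangentSpace 𝓘(ℝ, E) z),
      ‖mfderiv 𝓘(ℝ, E) 𝓘(ℝ, E) (fun y => phi f k y u) z w‖ ≤ B * ‖w‖ →
      ‖TT k u z (tri E (ctr z) z w)‖ ≤ L * L * B * ‖tri E (ctr z) z w‖ := by
    intro u z hz k B hB w hw
    rw [Tval u z hz k w]
    have hq := hLQ _ _ (hLs u z hz k)
    have h1 := hC.tri_le _ (hC.ctr_mem _ hq) _ (hC.ctr_N _ hq)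
      (mfderiv 𝓘(ℝ, E) 𝓘(ℝ, E) (fun y => phi f k y u) z w)
    have hq' := hLQ u z hz
    have h2 := hC.tris_le _ (hC.ctr_mem _ hq') _ (hC.ctr_N _ hq') (tri E (ctr z) z w)
    rw [tris_tri (hsrc z hq')] at h2
    calc _ ≤ L * ‖mfderiv 𝓘(ℝ, E) 𝓘(ℝ, E) (fun y => phi f k y u) z w‖ := h1
      _ ≤ L * (B * ‖w‖) := by gcongr
      _ ≤ L * (B * (L * ‖tri E (ctr z) z w‖)) := by gcongr
      _ = _ := by ring
  have Tdm : ∀ (u : ℤ → U) (z : M), (u, z) ∈ Lift f Q → ∀ (k : ℕ), ∀ v ∈ EmC u z,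
      ‖TT k u z v‖ ≤ L * L * c * lam ^ k * ‖v‖ := by
    intro u z hz k v hv
    obtain ⟨w, hw, rfl⟩ := hv
    have h := Tnorm u z hz k (c * lam ^ k) (by positivity) w (hH2m u z hz k w hw)
    calc _ ≤ L * L * (c * lam ^ k) * ‖tri E (ctr z) z w‖ := h
      _ = _ := by
        rw [show L * L * (c * lam ^ k) = L * L * c * lam ^ k by ring]
        rfl
  have Tdp : ∀ (u : ℤ → U) (z : M), (u, z) ∈ Lift f Q → ∀ (k : ℕ), ∀ v ∈ EpC u z,
      ‖TT (-(k : ℤ)) u z v‖ ≤ L * L * c * lam ^ k * ‖v‖ := by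
    intro u z hz k v hv
    obtain ⟨w, hw, rfl⟩ := hv
    have h := Tnorm u z hz (-(k : ℤ)) (c * lam ^ k) (by positivity) w (hH2p u z hz k w hw)
    calc _ ≤ L * L * (c * lam ^ k) * ‖tri E (ctr z) z w‖ := h
      _ = _ := by
        rw [show L * L * (c * lam ^ k) = L * L * c * lam ^ k by ring]
        rfl
  have Tcompl : ∀ (u : ℤ → U) (z : M), (u, z) ∈ Lift f Q → IsCompl (EmC u z) (EpC u z) := by
    intro u z hz
    let e : TangentSpace 𝓘(ℝ, E) z ≃ₗ[ℝ] E :=
      LinearEquiv.ofLinearMap (tri E (ctr z) z).toLinearMap (tris E (ctr z) z).toLinearMap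
        (by
          ext1 v
          exact tri_tris (hsrc z (hLQ u z hz)) v)
        (by
          ext1 v
          exact tris_tri (hsrc z (hLQ u z hz)) v)
    exact (Submodule.orderIsoMapComap e).isCompl (hcompl u z hz)
  have T1 : ∀ (u : ℤ → U) (z : M), TT 1 u z = rep E (ctr z) (ctr (f (u 0) z)) (f (u 0)) z := by
    intro u z
    have hfun : (fun y => phi f 1 y u) = fun y => f (u 0) y := by
      funext y
      have := hsucc E U M f u y 0
      rw [zero_add, hph0] at this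
      exact this
    have hval : phi f 1 z u = f (u 0) z := congrFun hfun z
    show rep E (ctr z) (ctr (phi f 1 z u)) (fun y => phi f 1 y u) z = _
    rw [hval, hfun]
  refine ⟨L * L * c, lam, K, ?_, hl0, hl1, ?_⟩
  · nlinarith [mul_le_mul hL1 hL1 zero_le_one hL0.le]
  intro u x hx
  refine ⟨fun s t => TT (s - t) (sh t u) (phi f t x u), fun t => EmC (sh t u) (phi f t x u),
    fun t => EpC (sh t u) (phi f t x u), ?_, ?_⟩
  · have hL := hLs u x hx
    have hsh2 : ∀ s t : ℤ, sh (s - t) (sh t u) = sh s u := by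
      intro s t
      rw [hshsh, sub_add_cancel]
    have hph2 : ∀ s t : ℤ, phi f (s - t) (phi f t x u) (sh t u) = phi f s x u := by
      intro s t
      rw [← hadd E U M f u x (s - t) t, sub_add_cancel]
    refine ⟨?_, ?_, fun t => Tcompl _ _ (hL t), ?_, ?_, ?_, ?_, ?_⟩
    · intro t
      show TT (t - t) (sh t u) (phi f t x u) = _
      rw [sub_self]
      exact Ta _ _ (hL t)
    · intro r s t
      show (TT (r - s) (sh s u) (phi f s x u)).comp (TT (s - t) (sh t u) (phi f t x u))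
        = TT (r - t) (sh t u) (phi f t x u)
      have h := Tb _ _ (hL t) (r - s) (s - t)
      rw [hsh2, hph2, sub_add_sub_cancel] at h
      exact h.symm
    · intro s t v hv
      have h := Tcm _ _ (hL t) (s - t) v hv
      rwa [hsh2, hph2] at h
    · intro s t v hv
      have h := Tcp _ _ (hL t) (s - t) v hv
      rwa [hsh2, hph2] at h
    · intro t k v hv
      show ‖TT (t + k - t) (sh t u) (phi f t x u) v‖ ≤ _
      rw [add_sub_cancel_left]
      exact Tdm _ _ (hL t) k v hv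
    · intro t k v hv
      show ‖TT (t - k - t) (sh t u) (phi f t x u) v‖ ≤ _
      rw [show t - (k : ℤ) - t = -(k : ℤ) by ring]
      exact Tdp _ _ (hL t) k v hv
    · intro t
      show ‖TT (t + 1 - t) (sh t u) (phi f t x u)‖ ≤ _
      rw [add_sub_cancel_left, T1]
      refine hKb _ _ (hLQ _ _ (hL t)) ?_
      have h := hLQ _ _ (hLs _ _ (hL t) 1)
      have h1 := hsucc E U M f (sh t u) (phi f t x u) 0
      rw [zero_add, hph0] at h1
      rwa [h1] at h
  · intro t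
    show TT (t + 1 - t) (sh t u) (phi f t x u) = _
    rw [add_sub_cancel_left, T1]
    simp only [sh, zero_add]

end

end Pool.Agent.Q87.CH
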