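import Pool.Agent.Q87.CH.Stm

/-!
# Controlled hyperbolic sets: chains in a compact connected metric space (helper144)
-/

namespace Pool.Agent.Q87.CH

open Filter Topology Set

noncomputable section

/-- `b` is reached from `a` by a chain of `k` steps smaller than `δ` -/
def Rch {U : Type} [MetricSpace U] (δ : ℝ) (k : ℕ) (a b : U) : Prop :=
  ∃ g : ℕ → U, g 0 = a ∧ g k = b ∧ ∀ i, dist (g i) (g (i + 1)) < δ

section

variable {U : Type} [MetricSpace U] {δ : ℝ}

theorem rch_zero (hδ : 0 < δ) (a : U) : Rch δ 0 a a :=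
  ⟨fun _ => a, rfl, rfl, fun _ => by simpa using hδ⟩

theorem rch_trans {k l : ℕ} {a b c : U} (h : Rch δ k a b) (h' : Rch δ l b c) : Rch δ (k + l) a c := by
  obtain ⟨g, g0, gk, gd⟩ := h
  obtain ⟨g', g0', gl', gd'⟩ := h'
  refine ⟨fun i => if i ≤ k then g i else g' (i - k), ?_, ?_, fun i => ?_⟩
  · simp [g0]
  · simp only
    split_ifs with h1
    · have h2 : l = 0 := by omega
      subst h2
      rw [add_zero, gk, ← g0', gl']
    · rw [Nat.add_sub_cancel_left, gl']
  · simp only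
    by_cases h1 : i + 1 ≤ k
    · rw [if_pos (by omega), if_pos h1]
      exact gd i
    · rw [if_neg h1]
      by_cases h2 : i ≤ k
      · rw [if_pos h2]
        have h3 : i = k := by omega
        rw [h3, gk, ← g0', Nat.add_sub_cancel_left]
        exact gd' 0
      · rw [if_neg h2]
        have h3 : i + 1 - k = (i - k) + 1 := by omega
        rw [h3]
        exact gd' _

theorem rch_symm (hδ : 0 < δ) {k : ℕ} {a b : U} (h : Rch δ k a b) : Rch δ k b a := by
  obtain ⟨g, g0, gk, gd⟩ := h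
  refine ⟨fun i => g (k - i), by simpa using gk, by simpa using g0, fun i => ?_⟩
  simp only
  by_cases h1 : i < k
  · have h2 : k - i = (k - (i + 1)) + 1 := by omega
    rw [h2, dist_comm]
    exact gd _
  · have h2 : k - i = 0 := by omega
    have h3 : k - (i + 1) = 0 := by omega
    rw [h2, h3, dist_self]
    exact hδ

theorem rch_one (hδ : 0 < δ) {a b : U} (h : dist a b < δ) : Rch δ 1 a b := by
  refine ⟨fun i => if i = 0 then a else b, rfl, rfl, fun i => ?_⟩
  simp only
  rw [if_neg (Nat.succ_ne_zero i)]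
  split_ifs
  · exact h
  · rw [dist_self]
    exact hδ

theorem rch_succ (hδ : 0 < δ) {k : ℕ} {a b c : U} (h : Rch δ k a b) (h' : dist b c < δ) : Rch δ (k + 1) a c :=
  rch_trans h (rch_one hδ h')

theorem rch_mono (hδ : 0 < δ) {k l : ℕ} (hkl : k ≤ l) {a b : U} (h : Rch δ k a b) : Rch δ l a b := by
  obtain ⟨d, rfl⟩ := Nat.exists_eq_add_of_le hkl
  clear hkl
  induction d with
  | zero => exact h
  | succ d ih => exact rch_succ hδ ih (by rw [dist_self]; exact hδ)

end

theorem chain : S_chain := by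
  intro U _ _ _ δ hδ
  obtain ⟨a₀⟩ : Nonempty U := inferInstance
  have hW : {b : U | ∃ k, Rch δ k a₀ b} = univ := by
    apply IsClopen.eq_univ
    · constructor
      · rw [← isOpen_compl_iff, Metric.isOpen_iff]
        intro b hb
        refine ⟨δ, hδ, fun c hc => ?_⟩
        rintro ⟨k, hk⟩
        exact hb ⟨k + 1, rch_succ hδ hk (by rw [← Metric.mem_ball]; exact hc)⟩
      · rw [Metric.isOpen_iff]
        rintro b ⟨k, hk⟩
        refine ⟨δ, hδ, fun c hc => ⟨k + 1, rch_succ hδ hk ?_⟩⟩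
        rw [dist_comm]
        exact hc
    · exact ⟨a₀, 0, rch_zero hδ a₀⟩
  have hcov : (univ : Set U) ⊆ ⋃ k : ℕ, ⋃ b ∈ {b : U | Rch δ k a₀ b}, Metric.ball b δ := by
    intro b _
    have hb : b ∈ {b : U | ∃ k, Rch δ k a₀ b} := by rw [hW]; trivial
    obtain ⟨k, hk⟩ := hb
    exact mem_iUnion.2 ⟨k, mem_iUnion₂.2 ⟨b, hk, Metric.mem_ball_self hδ⟩⟩
  have hmono : Monotone (fun k : ℕ => ⋃ b ∈ {b : U | Rch δ k a₀ b}, Metric.ball b δ) := by
    intro k l hkl x hx
    obtain ⟨b, hb, hx⟩ := mem_iUnion₂.1 hx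
    exact mem_iUnion₂.2 ⟨b, rch_mono hδ hkl hb, hx⟩
  obtain ⟨k, hk⟩ := isCompact_univ.elim_directed_cover _
    (fun k => isOpen_biUnion fun b _ => Metric.isOpen_ball) hcov hmono.directed_le
  have hall : ∀ b : U, Rch δ (k + 1) a₀ b := by
    intro b
    obtain ⟨c, hc, hb⟩ := mem_iUnion₂.1 (hk (mem_univ b))
    refine rch_succ hδ hc ?_
    rw [dist_comm]
    exact hb
  exact ⟨(k + 1) + (k + 1), fun a b => rch_trans (rch_symm hδ (hall a)) (hall b)⟩

end

end Pool.Agent.Q87.CH
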