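import Pool.Agent.Q87.CH.Stm

/-!
# Controlled hyperbolic sets: a finite family of charts (helper144)
-/

namespace Pool.Agent.Q87.CH

open scoped Manifold ContDiff Topology
open Bundle Set Filter

noncomputable section

/-- A finite family of charts. -/
theorem chs : S_chs := by
  classical
  intro E _ _ _ M _ _ _ _ _ _ Q hQ
  have : LocallyCompactSpace M := ChartedSpace.locallyCompactSpace E M
  have key : ∀ m : M, ∃ (A : Set M) (L : ℝ), A ∈ 𝓝 m ∧ IsCompact A ∧ A ⊆ (chartAt E m).source ∧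
      1 ≤ L ∧ (∀ z ∈ A, ∀ v : TangentSpace 𝓘(ℝ, E) z, ‖tri E m z v‖ ≤ L * ‖v‖) ∧
      ∀ z ∈ A, ∀ e : E, ‖tris E m z e‖ ≤ L * ‖e‖ := by
    intro m
    obtain ⟨C₁, hC₁, h₁⟩ := eventually_norm_trivializationAt_lt E (fun x : M => TangentSpace 𝓘(ℝ, E) x) m
    obtain ⟨C₂, hC₂, h₂⟩ := eventually_norm_symmL_trivializationAt_lt E (fun x : M => TangentSpace 𝓘(ℝ, E) x) m
    have h₃ : ∀ᶠ y in 𝓝 m, y ∈ (chartAt E m).source :=
      (chartAt E m).open_source.mem_nhds (mem_chart_source E m)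
    obtain ⟨A, ⟨hA1, hA2⟩, hA3⟩ := (compact_basis_nhds m).mem_iff.1 (h₁.and (h₂.and h₃))
    refine ⟨A, max 1 (max C₁ C₂), hA1, hA2, fun z hz => (hA3 hz).2.2, le_max_left _ _, ?_, ?_⟩
    · intro z hz v
      refine (ContinuousLinearMap.le_opNorm _ v).trans ?_
      refine mul_le_mul_of_nonneg_right ?_ (norm_nonneg _)
      exact (hA3 hz).1.le.trans ((le_max_left _ _).trans (le_max_right _ _))
    · intro z hz e
      refine (ContinuousLinearMap.le_opNorm _ e).trans ?_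
      refine mul_le_mul_of_nonneg_right ?_ (norm_nonneg _)
      exact (hA3 hz).2.1.le.trans ((le_max_right _ _).trans (le_max_right _ _))
  choose N L' hN1 hN2 hN3 hL1 hL2 hL3 using key
  obtain ⟨C, -, hC⟩ := hQ.elim_nhds_subcover N (fun x _ => hN1 x)
  have hex : ∀ z : M, ∃ m : M, z ∈ Q → m ∈ C ∧ z ∈ N m := by
    intro z
    by_cases hz : z ∈ Q
    · obtain ⟨m, hm, hz'⟩ := mem_iUnion₂.1 (hC hz)
      exact ⟨m, fun _ => ⟨hm, hz'⟩⟩
    · exact ⟨z, fun h => absurd h hz⟩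
  choose ctr hctr using hex
  have hle : ∀ m ∈ C, L' m ≤ 1 + ∑ m ∈ C, L' m := by
    intro m hm
    have h1 := Finset.single_le_sum (f := L') (fun i _ => zero_le_one.trans (hL1 i)) hm
    linarith
  refine ⟨C, N, ctr, 1 + ∑ m ∈ C, L' m, ⟨fun z hz => (hctr z hz).1, fun z hz => (hctr z hz).2,
    fun m _ => hN2 m, fun m _ => hN3 m, ?_, ?_, ?_⟩⟩
  · have h1 := Finset.sum_nonneg (f := L') (s := C) (fun i _ => zero_le_one.trans (hL1 i))
    linarith
  · intro m hm z hz v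
    exact (hL2 m z hz v).trans (mul_le_mul_of_nonneg_right (hle m hm) (norm_nonneg _))
  · intro m hm z hz e
    exact (hL3 m z hz e).trans (mul_le_mul_of_nonneg_right (hle m hm) (norm_nonneg _))

end

end Pool.Agent.Q87.CH
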