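import Mathlib

/-!
# Controlled hyperbolic sets (MP_dedb2f_an): definitions and lemma statements
-/

namespace Pool.Agent.Q87.CH

open scoped Manifold ContDiff Topology
open Bundle Set Filter

noncomputable section


section Sys

variable {E : Type} [NormedAddCommGroup E] [NormedSpace ℝ E] {U M : Type} [TopologicalSpace M] [ChartedSpace E M]

/-- `φ(k,x,u)` for `k ≥ 0`: `f_{u_{k-1}} ∘ ⋯ ∘ f_{u_0} (x)`. -/
def phiPos (f : U → Diffeomorph 𝓘(ℝ, E) 𝓘(ℝ, E) M M 1) (u : ℤ → U) (x : M) : ℕ → M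
  | 0 => x
  | k + 1 => f (u (k : ℤ)) (phiPos f u x k)

/-- `φ(-k,x,u)` for `k ≥ 0`: `f_{u_{-k}}⁻¹ ∘ ⋯ ∘ f_{u_{-1}}⁻¹ (x)`. -/
def phiNeg (f : U → Diffeomorph 𝓘(ℝ, E) 𝓘(ℝ, E) M M 1) (u : ℤ → U) (x : M) : ℕ → M
  | 0 => x
  | k + 1 => (f (u (-(k : ℤ) - 1))).symm (phiNeg f u x k)

/-- The transition map `φ(t,x,u)`, `t ∈ ℤ`. -/
def phi (f : U → Diffeomorph 𝓘(ℝ, E) 𝓘(ℝ, E) M M 1) (t : ℤ) (x : M) (u : ℤ → U) : M :=
  match t with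
  | Int.ofNat k => phiPos f u x k
  | Int.negSucc k => phiNeg f u x (k + 1)

/-- The shift `θ^t` on control sequences. -/
def sh (t : ℤ) (u : ℤ → U) : ℤ → U := fun s => u (s + t)

/-- The control flow `Φ_t(u,x) = (θ^t u, φ(t,x,u))`. -/
def Phi (f : U → Diffeomorph 𝓘(ℝ, E) 𝓘(ℝ, E) M M 1) (t : ℤ) (p : (ℤ → U) × M) : (ℤ → U) × M :=
  (sh t p.1, phi f t p.2 p.1)

/-- The fibre `Q(u)`: the points whose whole `u`-orbit stays in `Q`. -/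
def Fiber (f : U → Diffeomorph 𝓘(ℝ, E) 𝓘(ℝ, E) M M 1) (Q : Set M) (u : ℤ → U) : Set M :=
  {x | ∀ t : ℤ, phi f t x u ∈ Q}

/-- The lift `L(Q)`. -/
def Lift (f : U → Diffeomorph 𝓘(ℝ, E) 𝓘(ℝ, E) M M 1) (Q : Set M) : Set ((ℤ → U) × M) :=
  {p | ∀ t : ℤ, phi f t p.2 p.1 ∈ Q}

/-- Lower semicontinuity of the fibre map. -/
def FiberLSC [TopologicalSpace U] (f : U → Diffeomorph 𝓘(ℝ, E) 𝓘(ℝ, E) M M 1) (Q : Set M) : Prop :=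
  ∀ (u : ℤ → U), ∀ x ∈ Fiber f Q u, ∀ V : Set M, IsOpen V → x ∈ V →
    ∃ W : Set (ℤ → U), IsOpen W ∧ u ∈ W ∧ ∀ v ∈ W, (Fiber f Q v ∩ V).Nonempty

/-- The lift is isolated invariant: it is the largest invariant subset of one of its
neighbourhoods. -/
def IsolatedLift [TopologicalSpace U] (f : U → Diffeomorph 𝓘(ℝ, E) 𝓘(ℝ, E) M M 1) (Q : Set M) :
    Prop :=
  ∃ N : Set ((ℤ → U) × M), (∃ O : Set ((ℤ → U) × M), IsOpen O ∧ Lift f Q ⊆ O ∧ O ⊆ N) ∧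
    ∀ S : Set ((ℤ → U) × M), S ⊆ N → (∀ t : ℤ, Phi f t '' S = S) → S ⊆ Lift f Q

/-- The derivative `Dφ_{t,u}(x) : T_x M → T_{φ(t,x,u)} M`. -/
def Dphi (f : U → Diffeomorph 𝓘(ℝ, E) 𝓘(ℝ, E) M M 1) (t : ℤ) (u : ℤ → U) (x : M) :
    TangentSpace 𝓘(ℝ, E) x →L[ℝ] TangentSpace 𝓘(ℝ, E) (phi f t x u) :=
  mfderiv 𝓘(ℝ, E) 𝓘(ℝ, E) (fun y => phi f t y u) x

/-- A choice of a subspace of `T_x M` for every `(u, x)`. -/
abbrev SubFam (E U M : Type) [NormedAddCommGroup E] [NormedSpace ℝ E] [TopologicalSpace M]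
    [ChartedSpace E M] : Type :=
  (ℤ → U) → (x : M) → Submodule ℝ (TangentSpace 𝓘(ℝ, E) x)

/-- `T_x M = E^-(u,x) ⊕ E^+(u,x)` for `(u,x) ∈ L(Q)`. -/
def Complementary (f : U → Diffeomorph 𝓘(ℝ, E) 𝓘(ℝ, E) M M 1) (Q : Set M)
    (Em Ep : SubFam E U M) : Prop :=
  ∀ (u : ℤ → U) (x : M), (u, x) ∈ Lift f Q → IsCompl (Em u x) (Ep u x)

/-- (H1): `Dφ_{t,u}(x) F(u,x) = F(Φ_t(u,x))` for all `t ∈ ℤ` and `(u,x) ∈ L(Q)`. -/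
def InvariantFam (f : U → Diffeomorph 𝓘(ℝ, E) 𝓘(ℝ, E) M M 1) (Q : Set M)
    (F : SubFam E U M) : Prop :=
  ∀ (u : ℤ → U) (x : M), (u, x) ∈ Lift f Q → ∀ t : ℤ,
    (F u x).map (Dphi f t u x).toLinearMap = F (sh t u) (phi f t x u)

/-- (H2) for the stable bundle: `|Dφ_{t,u}(x) v| ≤ c λ^t |v|` for `t ≥ 0`. -/
def Stable [RiemannianBundle (fun x : M => TangentSpace 𝓘(ℝ, E) x)]
    (f : U → Diffeomorph 𝓘(ℝ, E) 𝓘(ℝ, E) M M 1) (Q : Set M)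
    (F : SubFam E U M) (c lam : ℝ) : Prop :=
  ∀ (u : ℤ → U) (x : M), (u, x) ∈ Lift f Q → ∀ t : ℕ, ∀ v ∈ F u x,
    ‖Dphi f (t : ℤ) u x v‖ ≤ c * lam ^ t * ‖v‖

/-- (H2) for the unstable bundle: `|Dφ_{-t,u}(x) v| ≤ c λ^t |v|` for `t ≥ 0`. -/
def Unstable [RiemannianBundle (fun x : M => TangentSpace 𝓘(ℝ, E) x)]
    (f : U → Diffeomorph 𝓘(ℝ, E) 𝓘(ℝ, E) M M 1) (Q : Set M)
    (F : SubFam E U M) (c lam : ℝ) : Prop :=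
  ∀ (u : ℤ → U) (x : M), (u, x) ∈ Lift f Q → ∀ t : ℕ, ∀ v ∈ F u x,
    ‖Dphi f (-(t : ℤ)) u x v‖ ≤ c * lam ^ t * ‖v‖

/-- (H3): constant dimension on `L(Q)`. -/
def ConstDim (f : U → Diffeomorph 𝓘(ℝ, E) 𝓘(ℝ, E) M M 1) (Q : Set M)
    (F : SubFam E U M) : Prop :=
  ∃ d : ℕ, ∀ (u : ℤ → U) (x : M), (u, x) ∈ Lift f Q → Module.finrank ℝ (F u x) = d

/-- The lift carries a hyperbolic splitting. -/
def HasSplitting [RiemannianBundle (fun x : M => TangentSpace 𝓘(ℝ, E) x)]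
    (f : U → Diffeomorph 𝓘(ℝ, E) 𝓘(ℝ, E) M M 1) (Q : Set M) : Prop :=
  ∃ Em Ep : SubFam E U M, Complementary f Q Em Ep ∧ InvariantFam f Q Em ∧
    InvariantFam f Q Ep ∧ (∃ c lam : ℝ, 1 ≤ c ∧ 0 < lam ∧ lam < 1 ∧ Stable f Q Em c lam ∧
      Unstable f Q Ep c lam) ∧ ConstDim f Q Em ∧ ConstDim f Q Ep

/-- A nonempty compact all-time controlled invariant set which is hyperbolic. -/
structure IsHyperbolic [RiemannianBundle (fun x : M => TangentSpace 𝓘(ℝ, E) x)]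
    (f : U → Diffeomorph 𝓘(ℝ, E) 𝓘(ℝ, E) M M 1) (Q : Set M) : Prop where
  nonempty : Q.Nonempty
  compact : IsCompact Q
  controlled_invariant : ∀ x ∈ Q, ∃ u : ℤ → U, ∀ t : ℤ, phi f t x u ∈ Q
  splitting : HasSplitting f Q

/-- The standing regularity of the system: `f`, `f⁻¹` and `Df` are jointly continuous. -/
structure IsSystem [TopologicalSpace U] [IsManifold 𝓘(ℝ, E) ∞ M]
    (f : U → Diffeomorph 𝓘(ℝ, E) 𝓘(ℝ, E) M M 1) : Prop where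
  cont : Continuous (fun p : U × M => f p.1 p.2)
  cont_symm : Continuous (fun p : U × M => (f p.1).symm p.2)
  cont_deriv : Continuous (fun p : U × TangentBundle 𝓘(ℝ, E) M =>
    tangentMap 𝓘(ℝ, E) 𝓘(ℝ, E) (f p.1) p.2)

end Sys

end

end Pool.Agent.Q87.CH
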