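import Pool.Agent.Q87.CH.Stm

/-!
# Controlled hyperbolic sets: nonlinear existence (helper144)
-/

namespace Pool.Agent.Q87.CH

open Filter Topology BoundedContinuousFunction

noncomputable section

/-- Nonlinear existence. -/
theorem exist (h1 : S_green) (h2 : S_bound) : S_exist := by
  intro E _ _ _ K lam hK hl0 hl1 T P D η r hη hr hA H hH hH0
  have hA0 : 0 ≤ 2 * K / (1 - lam) := by
    have : 0 < 1 - lam := by linarith
    positivity
  have hball : ∀ y : Metric.closedBall (0 : ℤ →ᵇ E) r, ∀ t, ‖(y : ℤ →ᵇ E) t‖ ≤ r := by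
    intro y t
    exact (BoundedContinuousFunction.norm_coe_le_norm _ t).trans (mem_closedBall_zero_iff.1 y.2)
  have hG : ∀ y : Metric.closedBall (0 : ℤ →ᵇ E) r, ∃ z : ℤ →ᵇ E, (∀ t, ‖z t‖ ≤ r) ∧
      ∀ t, z (t + 1) = T (t + 1) t (z t) + (H t ((y : ℤ →ᵇ E) t) - T (t + 1) t ((y : ℤ →ᵇ E) t)) := by
    intro y
    have h3 : ∀ t, ‖H t ((y : ℤ →ᵇ E) t) - T (t + 1) t ((y : ℤ →ᵇ E) t)‖ ≤ 2 * η * r := by
      intro t
      have h4 := hH t _ (mem_closedBall_zero_iff.2 (hball y t)) 0 (Metric.mem_closedBall_self hr.le)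
      rw [sub_zero] at h4
      have e1 : H t ((y : ℤ →ᵇ E) t) - T (t + 1) t ((y : ℤ →ᵇ E) t) =
          (H t ((y : ℤ →ᵇ E) t) - H t 0 - T (t + 1) t ((y : ℤ →ᵇ E) t)) + H t 0 := by abel
      rw [e1]
      refine (norm_add_le _ _).trans ?_
      have h5 : η * ‖(y : ℤ →ᵇ E) t‖ ≤ η * r := mul_le_mul_of_nonneg_left (hball y t) hη.le
      have h6 := hH0 t
      linarith
    obtain ⟨z, hz1, hz2⟩ := h1 E K lam hK hl0 hl1 T P D (2 * η * r) _ h3
    have hzr : ∀ t, ‖z t‖ ≤ r := by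
      intro t
      refine (hz1 t).trans ?_
      calc 2 * K / (1 - lam) * (2 * η * r) = (2 * K / (1 - lam) * η) * (2 * r) := by ring
        _ ≤ 1 / 2 * (2 * r) := mul_le_mul_of_nonneg_right hA (by linarith)
        _ = r := by ring
    exact ⟨BoundedContinuousFunction.ofNormedAddCommGroupDiscrete z r hzr, hzr, hz2⟩
  choose Φ hΦ1 hΦ2 using hG
  obtain ⟨f, hf⟩ : ∃ f : Metric.closedBall (0 : ℤ →ᵇ E) r → Metric.closedBall (0 : ℤ →ᵇ E) r,
      ∀ y, (f y : ℤ →ᵇ E) = Φ y :=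
    ⟨fun y => ⟨Φ y, mem_closedBall_zero_iff.2 ((BoundedContinuousFunction.norm_le hr.le).2 (hΦ1 y))⟩, fun y => rfl⟩
  have hc : ContractingWith (1 / 2) f := by
    refine ⟨by norm_num, LipschitzWith.of_dist_le_mul fun y y' => ?_⟩
    rw [Subtype.dist_eq, Subtype.dist_eq, hf, hf]
    have hd : 0 ≤ dist (y : ℤ →ᵇ E) (y' : ℤ →ᵇ E) := dist_nonneg
    rw [BoundedContinuousFunction.dist_le (by positivity)]
    intro t
    rw [dist_eq_norm]
    have h3 : ∀ t, ‖(H t ((y : ℤ →ᵇ E) t) - T (t + 1) t ((y : ℤ →ᵇ E) t)) -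
        (H t ((y' : ℤ →ᵇ E) t) - T (t + 1) t ((y' : ℤ →ᵇ E) t))‖ ≤ η * dist (y : ℤ →ᵇ E) (y' : ℤ →ᵇ E) := by
      intro t
      have h4 := hH t _ (mem_closedBall_zero_iff.2 (hball y t)) _ (mem_closedBall_zero_iff.2 (hball y' t))
      have e1 : (H t ((y : ℤ →ᵇ E) t) - T (t + 1) t ((y : ℤ →ᵇ E) t)) -
          (H t ((y' : ℤ →ᵇ E) t) - T (t + 1) t ((y' : ℤ →ᵇ E) t)) =
          H t ((y : ℤ →ᵇ E) t) - H t ((y' : ℤ →ᵇ E) t) -
            T (t + 1) t ((y : ℤ →ᵇ E) t - (y' : ℤ →ᵇ E) t) := by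
        rw [map_sub]
        abel
      rw [e1]
      refine h4.trans (mul_le_mul_of_nonneg_left ?_ hη.le)
      rw [← dist_eq_norm]
      exact BoundedContinuousFunction.dist_coe_le_dist t
    have h5 := h2 E K lam hK hl0 hl1 T P D (η * dist (y : ℤ →ᵇ E) (y' : ℤ →ᵇ E)) (2 * r) _
      (fun t => Φ y t - Φ y' t) h3 (fun t => (norm_sub_le _ _).trans (by linarith [hΦ1 y t, hΦ1 y' t])) (fun t => by
        rw [hΦ2 y t, hΦ2 y' t, map_sub]
        abel) t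
    refine h5.trans ?_
    have e2 : ((1 / 2 : NNReal) : ℝ) = 1 / 2 := by norm_num
    rw [e2]
    calc 2 * K / (1 - lam) * (η * dist (y : ℤ →ᵇ E) (y' : ℤ →ᵇ E)) =
          (2 * K / (1 - lam) * η) * dist (y : ℤ →ᵇ E) (y' : ℤ →ᵇ E) := by ring
      _ ≤ 1 / 2 * dist (y : ℤ →ᵇ E) (y' : ℤ →ᵇ E) := mul_le_mul_of_nonneg_right hA hd
  have : CompleteSpace (Metric.closedBall (0 : ℤ →ᵇ E) r) := Metric.isClosed_closedBall.completeSpace_coe
  have : Nonempty (Metric.closedBall (0 : ℤ →ᵇ E) r) := ⟨⟨0, Metric.mem_closedBall_self hr.le⟩⟩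
  have hfix := hc.fixedPoint_isFixedPt
  obtain ⟨y, hy⟩ : ∃ y, y = ContractingWith.fixedPoint f hc := ⟨_, rfl⟩
  rw [← hy] at hfix
  have h6 : Φ y = (y : ℤ →ᵇ E) := by rw [← hf, hfix]
  refine ⟨fun t => (y : ℤ →ᵇ E) t, hball y, fun t => ?_⟩
  have h7 := hΦ2 y t
  rw [h6] at h7
  simp only
  rw [h7]
  abel

end

end Pool.Agent.Q87.CH
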