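import Pool.Agent.Q87.CH.Stm

namespace Pool.Agent.Q87.CH

open scoped Manifold ContDiff Topology
open Bundle Set Filter

theorem final (hch : S_chain) (h2 : S_phicont) (h3 : S_lift) : S_final := by
  intro E _ _ _ U M _ _ _ _ _ _ f hs Q hQ hexp hsh u x hx V hV hxV
  obtain ⟨ρ, hρ, hE⟩ := hexp
  obtain ⟨δ, hδ, hS⟩ := hsh ρ hρ
  obtain ⟨m, hm⟩ := hch U δ hδ
  choose g g0 gm gd using hm
  obtain ⟨hLc, -, -⟩ := h3 E U M f hs Q hQ
  let c : U → U → ℕ → U := fun a b i => if dist a b < δ then (if i = 0 then a else b) else g a b i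
  have c0 : ∀ a b, c a b 0 = a := by
    intro a b
    simp only [c]
    split_ifs
    · rfl
    · exact g0 a b
  have cm : ∀ a b, c a b m = b := by
    intro a b
    simp only [c]
    split_ifs with h1 h2
    · have e1 := g0 a b
      have e2 := gm a b
      rw [h2, e1] at e2
      exact e2
    · rfl
    · exact gm a b
  have cd : ∀ a b i, dist (c a b i) (c a b (i + 1)) < δ := by
    intro a b i
    simp only [c]
    by_cases h1 : dist a b < δ
    · by_cases h2 : i = 0
      · simp only [if_pos h1, if_pos h2, if_neg (Nat.succ_ne_zero i)]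
        exact h1
      · simp only [if_pos h1, if_neg h2, if_neg (Nat.succ_ne_zero i)]
        simpa using hδ
    · simp only [if_neg h1]
      exact gd a b i
  let Vc : (ℤ → U) → ℕ → (ℤ → U) := fun v i t => c (u t) (v t) i
  have V0 : ∀ v, Vc v 0 = u := fun v => funext fun t => c0 _ _
  have Vm : ∀ v, Vc v m = v := fun v => funext fun t => cm _ _
  have step : ∀ (v : ℤ → U) (i : ℕ) (z : {z : M // (Vc v i, z) ∈ Lift f Q}),
      ∃ z' : {z : M // (Vc v (i + 1), z) ∈ Lift f Q},
        ∀ t, dist (phi f t z' (Vc v (i + 1))) (phi f t z (Vc v i)) ≤ ρ := by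
    intro v i z
    obtain ⟨z', hz', hd⟩ := hS (Vc v i) (Vc v (i + 1)) (fun t => cd _ _ i) z.1 z.2
    exact ⟨⟨z', hz'⟩, hd⟩
  choose S hSd using step
  have hux : ∀ v, (Vc v 0, x) ∈ Lift f Q := by
    intro v
    rw [V0]
    exact fun t => hx t
  let X : (v : ℤ → U) → (i : ℕ) → {z : M // (Vc v i, z) ∈ Lift f Q} := fun v i =>
    Nat.rec (motive := fun i => {z : M // (Vc v i, z) ∈ Lift f Q}) ⟨x, hux v⟩
      (fun i z => S v i z) i
  have X0 : ∀ v, ((X v 0 : {z : M // (Vc v 0, z) ∈ Lift f Q}) : M) = x := fun v => rfl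
  have Xs : ∀ v i, X v (i + 1) = S v i (X v i) := fun v i => rfl
  have XQ : ∀ v i, (X v i : M) ∈ Q := fun v i => (X v i).2 0
  by_contra hcon
  push Not at hcon
  have hB : (𝓝 u ⊓ 𝓟 {v : ℤ → U | ¬ (Fiber f Q v ∩ V).Nonempty}).NeBot := by
    refine mem_closure_iff_clusterPt.1 ?_
    rw [mem_closure_iff]
    intro W hW huW
    obtain ⟨v, hv, hv'⟩ := hcon W hW huW
    exact ⟨v, hv, by simpa [Set.not_nonempty_iff_eq_empty] using hv'⟩
  let G : Ultrafilter (ℤ → U) := Ultrafilter.of (𝓝 u ⊓ 𝓟 {v : ℤ → U | ¬ (Fiber f Q v ∩ V).Nonempty})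
  have hG : (G : Filter (ℤ → U)) ≤ 𝓝 u ⊓ 𝓟 {v : ℤ → U | ¬ (Fiber f Q v ∩ V).Nonempty} :=
    Ultrafilter.of_le _
  have hGu : Tendsto (fun v : ℤ → U => v) G (𝓝 u) := hG.trans inf_le_left
  have hGB : {v : ℤ → U | ¬ (Fiber f Q v ∩ V).Nonempty} ∈ (G : Filter (ℤ → U)) :=
    (hG.trans inf_le_right) (mem_principal_self _)
  have hV : ∀ i, Tendsto (fun v => Vc v i) G (𝓝 u) := by
    intro i
    rw [tendsto_pi_nhds]
    intro t
    have h1 : Tendsto (fun v : ℤ → U => v t) G (𝓝 (u t)) := (tendsto_pi_nhds.1 hGu) t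
    have h2 : ∀ᶠ v : ℤ → U in G, dist (u t) (v t) < δ := by
      have := (Metric.tendsto_nhds.1 h1) δ hδ
      filter_upwards [this] with v hv
      rwa [dist_comm]
    rcases Nat.eq_zero_or_pos i with hi | hi
    · subst hi
      have : (fun v => Vc v 0 t) = fun _ => u t := by
        funext v
        exact c0 _ _
      rw [this]
      exact tendsto_const_nhds
    · refine h1.congr' ?_
      filter_upwards [h2] with v hv
      simp only [Vc, c, if_pos hv, if_neg hi.ne']
  have key : ∀ i, Tendsto (fun v => (X v i : M)) G (𝓝 x) := by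
    intro i
    induction i with
    | zero => exact tendsto_const_nhds
    | succ i ih =>
      obtain ⟨l, hlQ, hl⟩ := hQ.ultrafilter_le_nhds (G.map (fun v => (X v (i + 1) : M)))
        (by
          rw [le_principal_iff]
          exact Ultrafilter.mem_map.2 (Filter.univ_mem' (fun v => XQ v (i + 1))))
      have hl' : Tendsto (fun v => (X v (i + 1) : M)) G (𝓝 l) := hl
      have h4 : (u, l) ∈ Lift f Q := by
        refine hLc.mem_of_tendsto ((hV (i + 1)).prodMk_nhds hl') ?_
        exact Eventually.of_forall (fun v => (X v (i + 1)).2)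
      have h5 : ∀ t, dist (phi f t l u) (phi f t x u) ≤ ρ := by
        intro t
        have c1 := ((h2 E U M f hs t).1.tendsto (u, l)).comp ((hV (i + 1)).prodMk_nhds hl')
        have c2 := ((h2 E U M f hs t).1.tendsto (u, x)).comp ((hV i).prodMk_nhds ih)
        refine le_of_tendsto (c1.dist c2) (Eventually.of_forall (fun v => ?_))
        simp only [Function.comp]
        rw [Xs]
        exact hSd v i (X v i) t
      have h6 : l = x := hE u x l (fun t => hx t) h4 h5
      rw [h6] at hl'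
      exact hl'
  have hend := key m
  have hVe : ∀ᶠ v in (G : Filter (ℤ → U)), (X v m : M) ∈ V := hend (‹IsOpen V›.mem_nhds hxV)
  obtain ⟨v, hv1, hv2⟩ := (hVe.and hGB).exists
  apply hv2
  refine ⟨X v m, ?_, hv1⟩
  have h7 : ∀ t, phi f t (X v m : M) (Vc v m) ∈ Q := (X v m).2
  intro t
  have h8 : ∀ (w : ℤ → U) (z : M), w = v → phi f t z w ∈ Q → phi f t z v ∈ Q := by
    intro w z hw h
    rwa [hw] at h
  exact h8 _ _ (Vm v) (h7 t)

end Pool.Agent.Q87.CH
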