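import Pool.Agent.Q87.CH.Stm

/-!
# Controlled hyperbolic sets: Green's function (helper144)
-/

namespace Pool.Agent.Q87.CH

open Filter Topology

noncomputable section

/-- Green's function. -/
theorem green : S_green := by
  intro E _ _ _ K lam hK hl0 hl1 T P D B h hB
  have hB0 : 0 ≤ B := (norm_nonneg _).trans (hB 0)
  have cc : ∀ r s t v, T r s (T s t v) = T r t v := by
    intro r s t v
    have h1 := DFunLike.congr_fun (D.cocycle r s t) v
    simpa only [ContinuousLinearMap.comp_apply] using h1
  have hg : Summable fun k : ℕ => K * lam ^ k * B :=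
    ((summable_geometric_of_lt_one hl0.le hl1).mul_left K).mul_right B
  have hgs : HasSum (fun k : ℕ => K * lam ^ k * B) (K / (1 - lam) * B) := by
    have h1 := ((hasSum_geometric_of_lt_one hl0.le hl1).mul_left K).mul_right B
    rwa [← div_eq_mul_inv] at h1
  -- the two series
  obtain ⟨F, hF⟩ : ∃ F : ℤ → ℕ → E, F = fun (t : ℤ) (k : ℕ) => T t (t - k) (P (t - k) (h (t - k - 1))) := ⟨_, rfl⟩
  obtain ⟨G, hG⟩ : ∃ G : ℤ → ℕ → E, G = fun (t : ℤ) (k : ℕ) => T t (t + k + 1) (h (t + k) - P (t + k + 1) (h (t + k))) :=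
    ⟨_, rfl⟩
  have hF1 : ∀ t k, ‖F t k‖ ≤ K * lam ^ k * B := by
    intro t k
    have h2 := D.stable (t - k) k (h (t - k - 1))
    rw [sub_add_cancel] at h2
    rw [hF]
    exact h2.trans (mul_le_mul_of_nonneg_left (hB _) (by positivity))
  have hG1 : ∀ t k, ‖G t k‖ ≤ K * lam ^ k * B := by
    intro t k
    have h2 := D.unstable (t + k + 1) (k + 1) (h (t + k))
    have e1 : t + k + 1 - ((k + 1 : ℕ) : ℤ) = t := by push_cast; ring
    rw [e1] at h2
    rw [hG]
    refine h2.trans ?_
    have h4 : lam ^ (k + 1) ≤ lam ^ k := pow_le_pow_of_le_one hl0.le hl1.le (Nat.le_succ k)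
    exact mul_le_mul (mul_le_mul_of_nonneg_left h4 hK) (hB _) (norm_nonneg _) (by positivity)
  have hFs : ∀ t, Summable (F t) := fun t => Summable.of_norm_bounded hg (hF1 t)
  have hGs : ∀ t, Summable (G t) := fun t => Summable.of_norm_bounded hg (hG1 t)
  refine ⟨fun t => (∑' k, F t k) - ∑' k, G t k, fun t => ?_, fun t => ?_⟩
  · have e2 : 2 * K / (1 - lam) * B = K / (1 - lam) * B + K / (1 - lam) * B := by ring
    rw [e2]
    exact (norm_sub_le _ _).trans (add_le_add (tsum_of_norm_bounded hgs (hF1 t)) (tsum_of_norm_bounded hgs (hG1 t)))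
  · simp only
    rw [map_sub, (T (t + 1) t).map_tsum (hFs t), (T (t + 1) t).map_tsum (hGs t)]
    have e1 : ∑' k, F (t + 1) k = P (t + 1) (h t) + ∑' k, T (t + 1) t (F t k) := by
      rw [(hFs (t + 1)).tsum_eq_zero_add]
      congr 1
      · rw [hF]
        simp only [Nat.cast_zero, sub_zero, add_sub_cancel_right, D.diag, ContinuousLinearMap.id_apply]
      · refine tsum_congr fun k => ?_
        rw [hF]
        simp only
        rw [cc]
        have e2 : t + 1 - ((k + 1 : ℕ) : ℤ) = t - k := by push_cast; ring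
        rw [e2]
    have e3 : ∑' k, T (t + 1) t (G t k) = (h t - P (t + 1) (h t)) + ∑' k, G (t + 1) k := by
      have h5 : Summable fun k => T (t + 1) t (G t k) := (T (t + 1) t).summable (hGs t)
      rw [h5.tsum_eq_zero_add]
      congr 1
      · rw [hG]
        simp only [Nat.cast_zero, add_zero]
        rw [cc, D.diag, ContinuousLinearMap.id_apply]
      · refine tsum_congr fun k => ?_
        rw [hG]
        simp only
        rw [cc]
        have e2 : t + ((k + 1 : ℕ) : ℤ) = t + 1 + k := by push_cast; ring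
        rw [e2]
    rw [e1, e3]
    abel

end

end Pool.Agent.Q87.CH
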