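import Pool.Agent.Q87.CH.Stm

namespace Pool.Agent.Q87.CH

open scoped Manifold ContDiff Topology
open Bundle Set Filter

theorem lift (h1 : S_phiadd) (h2 : S_phicont) : S_lift := by
  intro E _ _ _ U M _ _ _ _ _ _ f hs Q hQ
  have hcl : IsClosed (Lift f Q) := by
    have : Lift f Q = ⋂ t : ℤ, (fun p : (ℤ → U) × M => phi f t p.2 p.1) ⁻¹' Q := by
      ext p
      simp only [Lift, mem_ofPred_eq, mem_iInter, mem_preimage]
    rw [this]
    exact isClosed_iInter (fun t => hQ.isClosed.preimage (h2 E U M f hs t).1)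
  refine ⟨hcl, ?_, ?_⟩
  · have h3 : IsCompact ((univ : Set (ℤ → U)) ×ˢ Q) := isCompact_univ.prod hQ
    refine h3.of_isClosed_subset hcl ?_
    intro p hp
    exact ⟨mem_univ _, hp 0⟩
  · intro p hp t s
    show phi f s (phi f t p.2 p.1) (sh t p.1) ∈ Q
    rw [← h1 E U M f p.1 p.2 s t]
    exact hp (s + t)

theorem isol (h1 : S_phiadd) (h2 : S_lift) : S_isol := by
  intro E _ _ _ U M _ _ _ _ _ f hs Q hQ hiso
  obtain ⟨N, ⟨O, hO, hLO, hON⟩, hmax⟩ := hiso
  obtain ⟨-, hK, hinv⟩ := h2 E U M f hs Q hQ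
  have key : ∃ δ : ℝ, 0 < δ ∧ ∀ p ∈ Lift f Q, ∀ q : (ℤ → U) × M,
      (∀ t, dist (p.1 t) (q.1 t) ≤ δ) → dist q.2 p.2 ≤ δ → q ∈ O := by
    by_contra hcon
    push Not at hcon
    have hk : ∀ k : ℕ, ∃ p ∈ Lift f Q, ∃ q : (ℤ → U) × M,
      (∀ t, dist (p.1 t) (q.1 t) ≤ 1 / ((k : ℝ) + 1)) ∧ dist q.2 p.2 ≤ 1 / ((k : ℝ) + 1) ∧
        q ∉ O := by
      intro k
      obtain ⟨p, hp, q, h3, h4, h5⟩ := hcon (1 / ((k : ℝ) + 1)) (by positivity)
      exact ⟨p, hp, q, h3, h4, h5⟩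
    choose p hp q hq1 hq2 hq3 using hk
    obtain ⟨a, ha, φ, hφ, hlim⟩ := hK.tendsto_subseq hp
    have hz : Tendsto (fun k : ℕ => 1 / ((φ k : ℝ) + 1)) atTop (𝓝 0) :=
      tendsto_one_div_add_atTop_nhds_zero_nat.comp hφ.tendsto_atTop
    have hql : Tendsto (fun k => q (φ k)) atTop (𝓝 a) := by
      have e1 : Tendsto (fun k => (q (φ k)).1) atTop (𝓝 a.1) := by
        rw [tendsto_pi_nhds]
        intro t
        have e2 : Tendsto (fun k => (p (φ k)).1 t) atTop (𝓝 (a.1 t)) :=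
          (tendsto_pi_nhds.1 ((continuous_fst.tendsto a).comp hlim)) t
        refine e2.congr_dist ?_
        exact squeeze_zero (fun _ => dist_nonneg) (fun k => hq1 (φ k) t) hz
      have e3 : Tendsto (fun k => (q (φ k)).2) atTop (𝓝 a.2) := by
        have e2 : Tendsto (fun k => (p (φ k)).2) atTop (𝓝 a.2) :=
          (continuous_snd.tendsto a).comp hlim
        refine e2.congr_dist ?_
        refine squeeze_zero (fun _ => dist_nonneg) (fun k => ?_) hz
        rw [dist_comm]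
        exact hq2 (φ k)
      exact e1.prodMk_nhds e3
    have hev : ∀ᶠ k in atTop, q (φ k) ∈ O := hql (hO.mem_nhds (hLO ha))
    obtain ⟨k, hk⟩ := hev.exists
    exact hq3 _ hk
  obtain ⟨δ, hδ, hkey⟩ := key
  refine ⟨δ, hδ, ?_⟩
  intro v w x z hx hvw hd
  have hS := hmax (range (fun t : ℤ => Phi f t (w, z))) (by
      rintro _ ⟨t, rfl⟩
      refine hON (hkey _ (hinv _ hx t) _ (fun s => hvw (s + t)) (hd t)))
    (by
      intro t
      have hadd : ∀ s : ℤ, Phi f t (Phi f s (w, z)) = Phi f (t + s) (w, z) := by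
        intro s
        unfold Phi
        simp only
        rw [h1 E U M f w z t s]
        congr 1
        funext r
        simp only [sh]
        congr 1
        ring
      ext p
      constructor
      · rintro ⟨_, ⟨s, rfl⟩, rfl⟩
        exact ⟨t + s, (hadd s).symm⟩
      · rintro ⟨s, rfl⟩
        refine ⟨Phi f (s - t) (w, z), ⟨s - t, rfl⟩, ?_⟩
        rw [hadd]
        congr 1
        ring)
  have h0 : Phi f 0 (w, z) = (w, z) := by
    unfold Phi
    simp only
    congr 1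
    funext r
    simp only [sh, add_zero]
  rw [← h0]
  exact hS ⟨0, rfl⟩

end Pool.Agent.Q87.CH
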