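import Pool.Agent.Q87.CH.Stm

namespace Pool.Agent.Q87.CH

open scoped Manifold ContDiff Topology
open Bundle Set Filter

theorem phisucc : S_phisucc := by
  intro E _ _ _ U M _ _ f u x t
  match t with
  | Int.ofNat k => rfl
  | Int.negSucc 0 =>
    show x = f (u (-1)) ((f (u (-(0 : ℕ) - 1))).symm x)
    have : (-((0 : ℕ) : ℤ) - 1) = -1 := by norm_num
    rw [this]
    exact ((f (u (-1))).apply_symm_apply x).symm
  | Int.negSucc (k + 1) =>
    have h1 : Int.negSucc (k + 1) + 1 = Int.negSucc k := by
      rfl
    rw [h1]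
    show phiNeg f u x (k + 1) = f (u (Int.negSucc (k + 1)))
      ((f (u (-((k + 1 : ℕ) : ℤ) - 1))).symm (phiNeg f u x (k + 1)))
    have : (-((k + 1 : ℕ) : ℤ) - 1) = Int.negSucc (k + 1) := by
      rw [Int.negSucc_eq]
      push_cast
      ring
    rw [this]
    exact ((f (u (Int.negSucc (k + 1)))).apply_symm_apply _).symm

theorem phiuniq : S_phiuniq := by
  intro E _ _ _ U M _ _ f u z hz t
  induction t using Int.induction_on with
  | zero => rfl
  | succ i ih => rw [hz, ih, phisucc E U M f u (z 0) i]
  | pred i ih =>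
    have h1 := hz (-(i : ℤ) - 1)
    have h2 := phisucc E U M f u (z 0) (-(i : ℤ) - 1)
    rw [sub_add_cancel] at h1 h2
    rw [h1, h2] at ih
    exact (f (u (-(i : ℤ) - 1))).injective ih

theorem phiadd : S_phiadd := by
  intro E _ _ _ U M _ _ f u x t s
  have h := phiuniq E U M f (sh s u) (fun t => phi f (t + s) x u) (by
    intro t
    show phi f (t + 1 + s) x u = f (u (t + s)) (phi f (t + s) x u)
    rw [show t + 1 + s = t + s + 1 by ring]
    exact phisucc E U M f u x (t + s)) t
  simp only [zero_add] at h
  exact h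

theorem phipred {E : Type} [NormedAddCommGroup E] [NormedSpace ℝ E] [FiniteDimensional ℝ E] {U M : Type} [TopologicalSpace M] [ChartedSpace E M]
    (f : U → Diffeomorph 𝓘(ℝ, E) 𝓘(ℝ, E) M M 1) (u : ℤ → U) (x : M) (t : ℤ) :
    phi f (t - 1) x u = (f (u (t - 1))).symm (phi f t x u) := by
  have h := phisucc E U M f u x (t - 1)
  rw [sub_add_cancel] at h
  rw [h]
  exact ((f (u (t - 1))).symm_apply_apply _).symm

theorem phicont : S_phicont := by
  intro E _ _ _ U M _ _ _ _ f hs t
  induction t using Int.induction_on with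
  | zero =>
    refine ⟨?_, ?_⟩
    · exact continuous_snd
    · intro u
      exact mdifferentiable_id
  | succ i ih =>
    refine ⟨?_, ?_⟩
    · have h : (fun p : (ℤ → U) × M => phi f ((i : ℤ) + 1) p.2 p.1)
          = fun p => f (p.1 i) (phi f i p.2 p.1) := by
        funext p
        exact phisucc E U M f p.1 p.2 i
      rw [h]
      exact hs.cont.comp (((continuous_apply _).comp continuous_fst).prodMk ih.1)
    · intro u
      have h : (fun y : M => phi f ((i : ℤ) + 1) y u)
          = fun y => f (u i) (phi f i y u) := by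
        funext p
        exact phisucc E U M f u p i
      rw [h]
      exact ((f (u i)).mdifferentiable (by norm_num)).comp (ih.2 u)
  | pred i ih =>
    refine ⟨?_, ?_⟩
    · have h : (fun p : (ℤ → U) × M => phi f (-(i : ℤ) - 1) p.2 p.1)
          = fun p => (f (p.1 (-(i : ℤ) - 1))).symm (phi f (-(i : ℤ)) p.2 p.1) := by
        funext p
        exact phipred f p.1 p.2 (-(i : ℤ))
      rw [h]
      exact hs.cont_symm.comp (((continuous_apply _).comp continuous_fst).prodMk ih.1)
    · intro u
      have h : (fun y : M => phi f (-(i : ℤ) - 1) y u)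
          = fun y => (f (u (-(i : ℤ) - 1))).symm (phi f (-(i : ℤ)) y u) := by
        funext p
        exact phipred f u p (-(i : ℤ))
      rw [h]
      exact ((f (u (-(i : ℤ) - 1))).symm.mdifferentiable (by norm_num)).comp (ih.2 u)

end Pool.Agent.Q87.CH
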