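import Pool.Agent.Q87.CH.Stm

/-!
# Controlled hyperbolic sets: uniform projection bound (helper144)
-/

namespace Pool.Agent.Q87.CH

open Filter Topology

noncomputable section

theorem Spl.cc {E : Type} [NormedAddCommGroup E] [NormedSpace ℝ E] {c lam K : ℝ}
    {T : ℤ → ℤ → (E →L[ℝ] E)} {Em Ep : ℤ → Submodule ℝ E} (S : Spl c lam K T Em Ep) (r s t : ℤ) (v : E) :
    T r s (T s t v) = T r t v := by
  have h1 := DFunLike.congr_fun (S.cocycle r s t) v
  simpa only [ContinuousLinearMap.comp_apply] using h1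

theorem Spl.pow {E : Type} [NormedAddCommGroup E] [NormedSpace ℝ E] {c lam K : ℝ}
    {T : ℤ → ℤ → (E →L[ℝ] E)} {Em Ep : ℤ → Submodule ℝ E} (S : Spl c lam K T Em Ep) (t : ℤ) (N : ℕ) (v : E) :
    ‖T (t + N) t v‖ ≤ |K| ^ N * ‖v‖ := by
  induction N with
  | zero => simp [S.diag]
  | succ N ih =>
    have e1 : t + ((N + 1 : ℕ) : ℤ) = t + N + 1 := by push_cast; ring
    rw [e1, ← S.cc (t + N + 1) (t + N) t]
    calc ‖T (t + N + 1) (t + N) (T (t + N) t v)‖ ≤ ‖T (t + N + 1) (t + N)‖ * ‖T (t + N) t v‖ :=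
          ContinuousLinearMap.le_opNorm _ _
      _ ≤ |K| * (|K| ^ N * ‖v‖) := mul_le_mul ((S.bdd _).trans (le_abs_self K)) ih (norm_nonneg _) (abs_nonneg _)
      _ = |K| ^ (N + 1) * ‖v‖ := by rw [pow_succ]; ring

/-- the bound of the components -/
theorem Spl.comp_bd {E : Type} [NormedAddCommGroup E] [NormedSpace ℝ E] {c lam K : ℝ}
    {T : ℤ → ℤ → (E →L[ℝ] E)} {Em Ep : ℤ → Submodule ℝ E} (S : Spl c lam K T Em Ep) {N : ℕ}
    (hc : 0 ≤ c * lam ^ N) (hN : c * lam ^ N ≤ 1 / 2) (t : ℤ) {a b : E} (ha : a ∈ Em t) (hb : b ∈ Ep t) :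
    ‖b‖ ≤ (1 + |K| ^ N) * ‖a + b‖ := by
  have h1 : ‖b‖ ≤ c * lam ^ N * ‖T (t + N) t b‖ := by
    have h2 := S.unstable (t + N) N _ (S.mapp (t + N) t b hb)
    rw [add_sub_cancel_right, S.cc, S.diag] at h2
    exact h2
  have h2 : ‖T (t + N) t a‖ ≤ c * lam ^ N * ‖a‖ := S.stable t N a ha
  have h3 : ‖T (t + N) t b‖ ≤ |K| ^ N * ‖a + b‖ + c * lam ^ N * ‖a‖ := by
    have e1 : T (t + N) t b = T (t + N) t (a + b) - T (t + N) t a := by rw [map_add]; abel
    rw [e1]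
    exact (norm_sub_le _ _).trans (add_le_add (S.pow t N _) h2)
  have h4 : ‖a‖ ≤ ‖a + b‖ + ‖b‖ := by
    have e1 : a = (a + b) - b := by abel
    calc ‖a‖ = ‖(a + b) - b‖ := by rw [← e1]
      _ ≤ ‖a + b‖ + ‖b‖ := norm_sub_le _ _
  obtain ⟨ε, hε⟩ : ∃ ε : ℝ, ε = c * lam ^ N := ⟨_, rfl⟩
  rw [← hε] at hc hN h1 h3
  have hkn : 0 ≤ |K| ^ N * ‖a + b‖ := by positivity
  have hb0 := norm_nonneg b
  have ha0 := norm_nonneg a
  have hab0 := norm_nonneg (a + b)
  have h5 : ε * ‖a‖ ≤ 1 / 2 * (‖a + b‖ + ‖b‖) := by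
    calc ε * ‖a‖ ≤ 1 / 2 * ‖a‖ := mul_le_mul_of_nonneg_right hN ha0
      _ ≤ 1 / 2 * (‖a + b‖ + ‖b‖) := mul_le_mul_of_nonneg_left h4 (by norm_num)
  have h6 : ‖T (t + N) t b‖ ≤ |K| ^ N * ‖a + b‖ + 1 / 2 * (‖a + b‖ + ‖b‖) := h3.trans (by linarith)
  have h7 : ε * ‖T (t + N) t b‖ ≤ 1 / 2 * (|K| ^ N * ‖a + b‖ + 1 / 2 * (‖a + b‖ + ‖b‖)) :=
    mul_le_mul hN h6 (norm_nonneg _) (by norm_num)
  linarith

/-- Uniform projection bound. -/
theorem proj : S_proj := by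
  intro E _ _ c lam K hc hl0 hl1
  obtain ⟨N, hN⟩ : ∃ N : ℕ, c * lam ^ N ≤ 1 / 2 := by
    have h1 : Tendsto (fun N : ℕ => c * lam ^ N) atTop (𝓝 (c * 0)) :=
      (tendsto_pow_atTop_nhds_zero_of_lt_one hl0.le hl1).const_mul c
    rw [mul_zero] at h1
    obtain ⟨N, hN⟩ := (h1.eventually (gt_mem_nhds (show (0 : ℝ) < 1 / 2 by norm_num))).exists
    exact ⟨N, hN.le⟩
  have hcN : 0 ≤ c * lam ^ N := by positivity
  have hKN : 0 ≤ |K| ^ N := by positivity
  refine ⟨c * (2 + |K| ^ N), ?_, fun T Em Ep S => ?_⟩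
  · calc (1 : ℝ) = 1 * 1 := by norm_num
      _ ≤ c * (2 + |K| ^ N) := mul_le_mul hc (by linarith) (by norm_num) (by linarith)
  -- decomposition
  have hmem : ∀ t v, (Em t).projection (Ep t) (S.compl t) v ∈ Em t := fun t v =>
    Submodule.projection_apply_mem (S.compl t) v
  have hmem2 : ∀ t v, v - (Em t).projection (Ep t) (S.compl t) v ∈ Ep t := fun t v =>
    Submodule.sub_projection_mem (S.compl t) v
  have hb1 : ∀ t v, ‖v - (Em t).projection (Ep t) (S.compl t) v‖ ≤ (1 + |K| ^ N) * ‖v‖ := by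
    intro t v
    have h1 := S.comp_bd hcN hN t (hmem t v) (hmem2 t v)
    rwa [add_sub_cancel] at h1
  have hb2 : ∀ t v, ‖(Em t).projection (Ep t) (S.compl t) v‖ ≤ (2 + |K| ^ N) * ‖v‖ := by
    intro t v
    have e1 : (Em t).projection (Ep t) (S.compl t) v = v - (v - (Em t).projection (Ep t) (S.compl t) v) := by abel
    rw [e1]
    refine (norm_sub_le _ _).trans ?_
    have := hb1 t v
    linarith
  refine ⟨fun t => ((Em t).projection (Ep t) (S.compl t)).mkContinuous (2 + |K| ^ N) (hb2 t),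
    ⟨S.diag, S.cocycle, ?_, ?_, ?_⟩⟩
  · intro s t
    ext v
    simp only [ContinuousLinearMap.comp_apply, LinearMap.mkContinuous_apply]
    obtain ⟨a, ha⟩ : ∃ a, a = (Em t).projection (Ep t) (S.compl t) v := ⟨_, rfl⟩
    have ha1 : a ∈ Em t := by rw [ha]; exact hmem t v
    have ha2 : v - a ∈ Ep t := by rw [ha]; exact hmem2 t v
    rw [← ha]
    have e1 : T s t v = T s t a + T s t (v - a) := by rw [← map_add, add_sub_cancel]
    rw [e1, map_add, Submodule.projection_apply_of_mem_left (S.compl s) (S.mapm s t a ha1),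
      (Submodule.projection_apply_eq_zero_iff (S.compl s)).2 (S.mapp s t _ ha2), add_zero]
  · intro t k v
    rw [LinearMap.mkContinuous_apply]
    refine (S.stable t k _ (hmem t v)).trans ?_
    calc c * lam ^ k * ‖(Em t).projection (Ep t) (S.compl t) v‖ ≤ c * lam ^ k * ((2 + |K| ^ N) * ‖v‖) :=
          mul_le_mul_of_nonneg_left (hb2 t v) (by positivity)
      _ = c * (2 + |K| ^ N) * lam ^ k * ‖v‖ := by ring
  · intro t k v
    rw [LinearMap.mkContinuous_apply]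
    refine (S.unstable t k _ (hmem2 t v)).trans ?_
    calc c * lam ^ k * ‖v - (Em t).projection (Ep t) (S.compl t) v‖ ≤ c * lam ^ k * ((1 + |K| ^ N) * ‖v‖) :=
          mul_le_mul_of_nonneg_left (hb1 t v) (by positivity)
      _ ≤ c * lam ^ k * ((2 + |K| ^ N) * ‖v‖) := by
          refine mul_le_mul_of_nonneg_left (mul_le_mul_of_nonneg_right ?_ (norm_nonneg _)) (by positivity)
          linarith
      _ = c * (2 + |K| ^ N) * lam ^ k * ‖v‖ := by ring

end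

end Pool.Agent.Q87.CH
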