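import Pool.Agent.Q87.CH.Unif

namespace Pool.Agent.Q87.CH

open scoped Manifold ContDiff Topology
open Bundle Set Filter

theorem repbdd (h9 : S_repcont) : S_repbdd := by
  intro E _ _ _ U M _ _ _ _ _ _ _ f hs Q hQ C N ctr L hC
  have h1 : ∀ m ∈ C, ∀ m' ∈ C, ∃ K : ℝ, ∀ (v : U), ∀ x ∈ Q, x ∈ N m → f v x ∈ N m' →
      ‖rep E m m' (f v) x‖ ≤ K := by
    intro m hm m' hm'
    have hc := core_compact f hs Q hQ m (N m) (N m') (hC.comp m hm) (hC.comp m' hm') (hC.sub m hm)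
    have hsub := core_sub f Q m m' (N m) (N m') (hC.sub m hm) (hC.sub m' hm')
    obtain ⟨K, hK⟩ := hc.exists_bound_of_continuousOn ((h9 E U M f hs m m').mono hsub)
    refine ⟨K, ?_⟩
    intro v x hxQ hxN hfN
    have h2 := hK (v, extChartAt 𝓘(ℝ, E) m x) ⟨(v, x), ⟨⟨hxN, hxQ⟩, hfN⟩, rfl⟩
    simp only at h2
    have hsrc : x ∈ (extChartAt 𝓘(ℝ, E) m).source := by
      rw [extChartAt_source]
      exact hC.sub m hm hxN
    rwa [(extChartAt 𝓘(ℝ, E) m).left_inv hsrc] at h2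
  choose! K hK using h1
  refine ⟨1 + ∑ m ∈ C, ∑ m' ∈ C, |K m m'|, ?_, ?_⟩
  · have : 0 ≤ ∑ m ∈ C, ∑ m' ∈ C, |K m m'| :=
      Finset.sum_nonneg (fun m _ => Finset.sum_nonneg (fun m' _ => abs_nonneg _))
    linarith
  · intro v x hxQ hfQ
    have hm := hC.ctr_mem x hxQ
    have hm' := hC.ctr_mem (f v x) hfQ
    refine (hK _ hm _ hm' v x hxQ (hC.ctr_N x hxQ) (hC.ctr_N _ hfQ)).trans ?_
    have e1 : |K (ctr x) (ctr (f v x))| ≤ ∑ m' ∈ C, |K (ctr x) m'| :=
      Finset.single_le_sum (f := fun m' => |K (ctr x) m'|) (fun m' _ => abs_nonneg _) hm'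
    have e2 : ∑ m' ∈ C, |K (ctr x) m'| ≤ ∑ m ∈ C, ∑ m' ∈ C, |K m m'| :=
      Finset.single_le_sum (f := fun m => ∑ m' ∈ C, |K m m'|)
        (fun m _ => Finset.sum_nonneg (fun m' _ => abs_nonneg _)) hm
    have e3 := le_abs_self (K (ctr x) (ctr (f v x)))
    linarith

/-- Finitely many positive thresholds have a common one (one index). -/
theorem common1 {α : Type} (C : Finset α) (P : α → ℝ → Prop)
    (hmono : ∀ a d d', 0 < d' → d' ≤ d → P a d → P a d')
    (h : ∀ a ∈ C, ∃ d : ℝ, 0 < d ∧ P a d) :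
    ∃ d : ℝ, 0 < d ∧ ∀ a ∈ C, P a d := by
  obtain ⟨d, hd, h1⟩ := common C (fun a _ => P a) (fun a _ d d' => hmono a d d')
    (fun a ha b hb => h a ha)
  exact ⟨d, hd, fun a ha => h1 a ha a ha⟩

theorem close1 : S_close1 := by
  intro E _ _ _ M _ _ _ _ Q hQ C N ctr L hC ρ hρ
  obtain ⟨r, hr, h1⟩ := common1 C (fun m r => ∀ x ∈ N m, ∀ y : E,
      dist y (extChartAt 𝓘(ℝ, E) m x) < r →
        y ∈ (extChartAt 𝓘(ℝ, E) m).target ∧ dist ((extChartAt 𝓘(ℝ, E) m).symm y) x < ρ)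
    (fun m d d' _ hdd h x hx y hy => h x hx y (hy.trans_le hdd)) (by
      intro m hm
      have hsrc : ∀ x ∈ N m, x ∈ (extChartAt 𝓘(ℝ, E) m).source := by
        intro x hx
        rw [extChartAt_source]
        exact hC.sub m hm hx
      have hc : IsCompact (extChartAt 𝓘(ℝ, E) m '' N m) :=
        (hC.comp m hm).image_of_continuousOn
          ((continuousOn_extChartAt (I := 𝓘(ℝ, E)) m).mono hsrc)
      have hsub : extChartAt 𝓘(ℝ, E) m '' N m ⊆ (extChartAt 𝓘(ℝ, E) m).target := by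
        rintro _ ⟨x, hx, rfl⟩
        exact (extChartAt 𝓘(ℝ, E) m).map_source (hsrc x hx)
      have hopen := isOpen_extChartAt_target (I := 𝓘(ℝ, E)) m
      obtain ⟨δ1, hδ1, h1⟩ := hc.exists_thickening_subset_open hopen hsub
      have h2 := hc.uniformContinuousAt_of_continuousAt (extChartAt 𝓘(ℝ, E) m).symm
        (fun p hp => (continuousOn_extChartAt_symm (I := 𝓘(ℝ, E)) m).continuousAt
          (hopen.mem_nhds (hsub hp)))
        (Metric.dist_mem_uniformity hρ)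
      obtain ⟨δ2, hδ2, h3⟩ := Metric.mem_uniformity_dist.1 h2
      refine ⟨min δ1 δ2, lt_min hδ1 hδ2, ?_⟩
      intro x hx y hy
      have hmem : extChartAt 𝓘(ℝ, E) m x ∈ extChartAt 𝓘(ℝ, E) m '' N m := ⟨x, hx, rfl⟩
      refine ⟨h1 ?_, ?_⟩
      · rw [Metric.mem_thickening_iff]
        exact ⟨_, hmem, hy.trans_le (min_le_left _ _)⟩
      · rw [dist_comm] at hy
        have h4 := h3 (hy.trans_le (min_le_right _ _)) hmem
        simp only [mem_ofPred_eq] at h4
        rw [(extChartAt 𝓘(ℝ, E) m).left_inv (hsrc x hx), dist_comm] at h4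
        exact h4)
  refine ⟨r / 2, by linarith, ?_⟩
  intro x hxQ y hy
  exact h1 _ (hC.ctr_mem x hxQ) x (hC.ctr_N x hxQ) y
    ((Metric.mem_closedBall.1 hy).trans_lt (by linarith))

theorem close2 : S_close2 := by
  intro E _ _ _ M _ _ _ _ Q hQ C N ctr L hC r hr
  obtain ⟨ρ, hρ, h1⟩ := common1 C (fun m ρ => ∀ x ∈ N m, ∀ z : M,
      dist z x < ρ → z ∈ (chartAt E m).source ∧
        ‖extChartAt 𝓘(ℝ, E) m z - extChartAt 𝓘(ℝ, E) m x‖ ≤ r)
    (fun m d d' _ hdd h x hx y hy => h x hx y (hy.trans_le hdd)) (by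
      intro m hm
      have hsrc : ∀ x ∈ N m, x ∈ (extChartAt 𝓘(ℝ, E) m).source := by
        intro x hx
        rw [extChartAt_source]
        exact hC.sub m hm hx
      have hc := hC.comp m hm
      have hopen := (chartAt E m).open_source
      obtain ⟨δ1, hδ1, h1⟩ := hc.exists_thickening_subset_open hopen (hC.sub m hm)
      have h2 := hc.uniformContinuousAt_of_continuousAt (extChartAt 𝓘(ℝ, E) m)
        (fun p hp => continuousAt_extChartAt' (hsrc p hp))
        (Metric.dist_mem_uniformity hr)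
      obtain ⟨δ2, hδ2, h3⟩ := Metric.mem_uniformity_dist.1 h2
      refine ⟨min δ1 δ2, lt_min hδ1 hδ2, ?_⟩
      intro x hx z hz
      refine ⟨h1 ?_, ?_⟩
      · rw [Metric.mem_thickening_iff]
        exact ⟨x, hx, hz.trans_le (min_le_left _ _)⟩
      · rw [dist_comm] at hz
        have h4 := h3 (hz.trans_le (min_le_right _ _)) hx
        simp only [mem_ofPred_eq] at h4
        rw [dist_comm, dist_eq_norm] at h4
        exact h4.le)
  refine ⟨ρ / 2, by linarith, ?_⟩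
  intro x hxQ z hz
  exact h1 _ (hC.ctr_mem x hxQ) x (hC.ctr_N x hxQ) z (hz.trans_lt (by linarith))

end Pool.Agent.Q87.CH
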