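import Pool.Agent.Q87.CH.Stm

namespace Pool.Agent.Q87.CH

open scoped Manifold ContDiff Topology
open Bundle Set Filter

theorem repderiv : S_repderiv := by
  intro E _ _ _ M _ _ _ _ m m' g y hy hg hg'
  have hzs : (extChartAt 𝓘(ℝ, E) m).symm y ∈ (chartAt E m).source := by
    have := (extChartAt 𝓘(ℝ, E) m).map_target hy
    rwa [extChartAt_source] at this
  have e1 : HasMFDerivAt 𝓘(ℝ, E) 𝓘(ℝ, E) (extChartAt 𝓘(ℝ, E) m).symm y
      (tris E m ((extChartAt 𝓘(ℝ, E) m).symm y)) := by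
    have h := mdifferentiableWithinAt_extChartAt_symm (I := 𝓘(ℝ, E)) hy
    rw [ModelWithCorners.range_eq_univ, mdifferentiableWithinAt_univ] at h
    have h2 := h.hasMFDerivAt
    have h3 : tris E m ((extChartAt 𝓘(ℝ, E) m).symm y)
        = mfderiv 𝓘(ℝ, E) 𝓘(ℝ, E) (extChartAt 𝓘(ℝ, E) m).symm y := by
      unfold tris
      rw [TangentBundle.symmL_trivializationAt hzs, ModelWithCorners.range_eq_univ,
        mfderivWithin_univ, (extChartAt 𝓘(ℝ, E) m).right_inv hy]
    rw [h3]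
    exact h2
  have e2 := hg.hasMFDerivAt
  have e3 : HasMFDerivAt 𝓘(ℝ, E) 𝓘(ℝ, E) (extChartAt 𝓘(ℝ, E) m')
      (g ((extChartAt 𝓘(ℝ, E) m).symm y)) (tri E m' (g ((extChartAt 𝓘(ℝ, E) m).symm y))) := by
    have h2 := (mdifferentiableAt_extChartAt (I := 𝓘(ℝ, E)) hg').hasMFDerivAt
    have h3 : tri E m' (g ((extChartAt 𝓘(ℝ, E) m).symm y))
        = mfderiv 𝓘(ℝ, E) 𝓘(ℝ, E) (extChartAt 𝓘(ℝ, E) m') (g ((extChartAt 𝓘(ℝ, E) m).symm y)) := by
      unfold tri
      rw [TangentBundle.continuousLinearMapAt_trivializationAt hg']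
    rw [h3]
    exact h2
  have e4 := (e3.comp _ e2).comp y e1
  exact e4.hasFDerivAt

theorem repcont : S_repcont := by
  intro E _ _ _ U M _ _ _ _ _ f hs m m'
  rw [continuousOn_clm_apply]
  intro e
  have hsrc : ∀ y ∈ (extChartAt 𝓘(ℝ, E) m).target, (extChartAt 𝓘(ℝ, E) m).symm y ∈
      (trivializationAt E (TangentSpace 𝓘(ℝ, E) (M := M)) m).baseSet := by
    intro y hy
    rw [TangentBundle.trivializationAt_baseSet]
    have := (extChartAt 𝓘(ℝ, E) m).map_target hy
    rwa [extChartAt_source] at this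
  set S : Set (U × E) := {p : U × E | p.2 ∈ (extChartAt 𝓘(ℝ, E) m).target ∧
        f p.1 ((extChartAt 𝓘(ℝ, E) m).symm p.2) ∈ (chartAt E m').source} with hS
  have c1 : ContinuousOn (fun p : U × E => (TotalSpace.mk' E
      ((extChartAt 𝓘(ℝ, E) m).symm p.2)
      ((trivializationAt E (TangentSpace 𝓘(ℝ, E) (M := M)) m).symm
        ((extChartAt 𝓘(ℝ, E) m).symm p.2) e) : TangentBundle 𝓘(ℝ, E) M)) S := by
    have h1 := (trivializationAt E (TangentSpace 𝓘(ℝ, E) (M := M)) m).continuousOn_symm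
    have h2 : ContinuousOn (fun p : U × E => ((extChartAt 𝓘(ℝ, E) m).symm p.2, e)) S :=
      ((continuousOn_extChartAt_symm (I := 𝓘(ℝ, E)) m).comp continuousOn_snd
        (fun p hp => hp.1)).prodMk continuousOn_const
    exact h1.comp h2 (fun p hp => ⟨hsrc _ hp.1, mem_univ _⟩)
  have c2 : ContinuousOn (fun p : U × E => tangentMap 𝓘(ℝ, E) 𝓘(ℝ, E) (f p.1)
      (TotalSpace.mk' E ((extChartAt 𝓘(ℝ, E) m).symm p.2)
      ((trivializationAt E (TangentSpace 𝓘(ℝ, E) (M := M)) m).symm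
        ((extChartAt 𝓘(ℝ, E) m).symm p.2) e) : TangentBundle 𝓘(ℝ, E) M)) S :=
    hs.cont_deriv.comp_continuousOn (continuousOn_fst.prodMk c1)
  have c3 := (trivializationAt E (TangentSpace 𝓘(ℝ, E) (M := M)) m').continuousOn
  have hb : ∀ p ∈ S, f p.1 ((extChartAt 𝓘(ℝ, E) m).symm p.2) ∈
      (trivializationAt E (TangentSpace 𝓘(ℝ, E) (M := M)) m').baseSet := by
    intro p hp
    rw [TangentBundle.trivializationAt_baseSet]
    exact hp.2
  have c4 := c3.comp c2 (by
    intro p hp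
    rw [(trivializationAt E (TangentSpace 𝓘(ℝ, E) (M := M)) m').mem_source]
    exact hb p hp)
  have c5 := continuous_snd.comp_continuousOn c4
  refine c5.congr ?_
  intro p hp
  simp only [Function.comp]
  unfold rep tri tris
  simp only [ContinuousLinearMap.comp_apply]
  rw [Trivialization.continuousLinearMapAt_apply_of_mem ℝ _ (hb p hp),
    Trivialization.symmL_apply _ (hsrc _ hp.1)]
  rfl

end Pool.Agent.Q87.CH
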