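import Pool.Agent.Q87.CH.Stm

namespace Pool.Agent.Q87.CH

open scoped Manifold ContDiff Topology
open Bundle Set Filter

theorem shadow (hchs : S_chs) (hproj : S_proj) (hex : S_exist) (hunif : S_unif)
    (hcl : S_close1) (hsucc : S_phisucc) (huniq : S_phiuniq) (hisol : S_isol)
    (hbr : S_bridge) : S_shadow := by
  intro E _ _ _ U M _ _ _ _ _ _ _ f hs Q hQ hiso ρ hρ
  haveI : CompleteSpace E := FiniteDimensional.complete ℝ E
  obtain ⟨C, N, ctr, L, hC⟩ := hchs E M Q hQ.compact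
  obtain ⟨c, lam, K, hc, hl0, hl1, hB⟩ := hbr E U M f hs Q hQ C N ctr L hC
  obtain ⟨D, hD, hP⟩ := hproj E c lam K hc hl0 hl1
  have hD0 : (0 : ℝ) < D := by linarith
  have h1l : 0 < 1 - lam := by linarith
  set η : ℝ := (1 - lam) / (4 * D) with hη
  have hη0 : 0 < η := by positivity
  have hAη : 2 * D / (1 - lam) * η ≤ 1 / 2 := by
    rw [hη]
    have : 2 * D / (1 - lam) * ((1 - lam) / (4 * D)) = 1 / 2 := by
      field_simp
      ring
    exact this.le
  obtain ⟨δ0, hδ0, hI⟩ := hisol E U M f hs Q hQ.compact hiso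
  obtain ⟨r1, hr1, hcl1⟩ := hcl E M Q hQ.compact C N ctr L hC (min ρ δ0) (lt_min hρ hδ0)
  obtain ⟨r, hr, hrr, δ1, hδ1, hU⟩ := hunif E U M f hs Q hQ.compact C N ctr L hC η r1 hη0 hr1
  refine ⟨min δ0 δ1, lt_min hδ0 hδ1, ?_⟩
  intro v w hvw x hx
  obtain ⟨T, Em, Ep, hS, hT⟩ := hB v x hx
  obtain ⟨P, hPd⟩ := hP T Em Ep hS
  have hxQ : ∀ t, phi f t x v ∈ Q := hx
  have hstep : ∀ t, phi f (t + 1) x v = f (v t) (phi f t x v) := fun t => hsucc E U M f v x t
  have hfQ : ∀ t, f (v t) (phi f t x v) ∈ Q := fun t => by rw [← hstep]; exact hxQ _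
  have hU' := fun t => hU (v t) (w t) (lt_of_lt_of_le (hvw t) (min_le_right _ _))
    (phi f t x v) (hxQ t) (hfQ t)
  obtain ⟨y, hyr, hy⟩ := hex E D lam hD0.le hl0 hl1 T P hPd η r hη0 hr hAη
    (fun t e => loc E (ctr (phi f t x v)) (ctr (f (v t) (phi f t x v))) (f (w t))
        (extChartAt 𝓘(ℝ, E) (ctr (phi f t x v)) (phi f t x v) + e)
      - extChartAt 𝓘(ℝ, E) (ctr (f (v t) (phi f t x v))) (f (v t) (phi f t x v)))
    (by
      intro t e he e' he'
      have h := (hU' t).2.1 (extChartAt 𝓘(ℝ, E) (ctr (phi f t x v)) (phi f t x v) + e)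
        (by simpa [Metric.mem_closedBall, dist_eq_norm] using he)
        (extChartAt 𝓘(ℝ, E) (ctr (phi f t x v)) (phi f t x v) + e')
        (by simpa [Metric.mem_closedBall, dist_eq_norm] using he')
      rw [hT t]
      have e1 : extChartAt 𝓘(ℝ, E) (ctr (phi f t x v)) (phi f t x v) + e
          - (extChartAt 𝓘(ℝ, E) (ctr (phi f t x v)) (phi f t x v) + e') = e - e' := by abel
      rw [e1] at h
      have e2 : ∀ a b c : E, (a - c) - (b - c) = a - b := by intro a b c; abel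
      rw [e2]
      exact h)
    (by
      intro t
      simp only [add_zero]
      exact (hU' t).2.2)
  set z : ℤ → M := fun t => (extChartAt 𝓘(ℝ, E) (ctr (phi f t x v))).symm
    (extChartAt 𝓘(ℝ, E) (ctr (phi f t x v)) (phi f t x v) + y t) with hz
  have hball : ∀ t, extChartAt 𝓘(ℝ, E) (ctr (phi f t x v)) (phi f t x v) + y t ∈
      Metric.closedBall (extChartAt 𝓘(ℝ, E) (ctr (phi f t x v)) (phi f t x v)) r := by
    intro t
    simpa [Metric.mem_closedBall, dist_eq_norm] using hyr t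
  have hzs : ∀ t, z (t + 1) = f (w t) (z t) := by
    intro t
    have h1 := ((hU' t).1 _ (hball t)).2
    have h2 : extChartAt 𝓘(ℝ, E) (ctr (phi f (t + 1) x v)) (phi f (t + 1) x v) + y (t + 1)
        = extChartAt 𝓘(ℝ, E) (ctr (f (v t) (phi f t x v))) (f (w t) (z t)) := by
      rw [hy t, hstep t]
      simp only [loc, hz]
      abel
    have h3 : z (t + 1) = (extChartAt 𝓘(ℝ, E) (ctr (phi f (t + 1) x v))).symm
      (extChartAt 𝓘(ℝ, E) (ctr (phi f (t + 1) x v)) (phi f (t + 1) x v) + y (t + 1)) := rfl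
    rw [h3, h2, hstep t]
    apply (extChartAt 𝓘(ℝ, E) (ctr (f (v t) (phi f t x v)))).left_inv
    rw [extChartAt_source]
    exact h1
  have hzphi := huniq E U M f w z hzs
  have hd : ∀ t, dist (z t) (phi f t x v) < min ρ δ0 := by
    intro t
    exact (hcl1 (phi f t x v) (hxQ t) _ (Metric.closedBall_subset_closedBall hrr (hball t))).2
  refine ⟨z 0, ?_, ?_⟩
  · refine hI v w x (z 0) hx (fun t => ((hvw t).trans_le (min_le_left _ _)).le) (fun t => ?_)
    rw [← hzphi t]
    exact ((hd t).trans_le (min_le_right _ _)).le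
  · intro t
    rw [← hzphi t]
    exact ((hd t).trans_le (min_le_left _ _)).le

theorem expans (hchs : S_chs) (hproj : S_proj) (huq : S_uniq) (hunif : S_unif)
    (hcl : S_close2) (hsucc : S_phisucc) (hbr : S_bridge) : S_expans := by
  intro E _ _ _ U M _ _ _ _ _ _ _ f hs Q hQ
  haveI : CompleteSpace E := FiniteDimensional.complete ℝ E
  obtain ⟨C, N, ctr, L, hC⟩ := hchs E M Q hQ.compact
  obtain ⟨c, lam, K, hc, hl0, hl1, hB⟩ := hbr E U M f hs Q hQ C N ctr L hC
  obtain ⟨D, hD, hP⟩ := hproj E c lam K hc hl0 hl1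
  have hD0 : (0 : ℝ) < D := by linarith
  have h1l : 0 < 1 - lam := by linarith
  set η : ℝ := (1 - lam) / (4 * D) with hη
  have hη0 : 0 < η := by positivity
  have hAη : 2 * D / (1 - lam) * η ≤ 1 / 2 := by
    rw [hη]
    have : 2 * D / (1 - lam) * ((1 - lam) / (4 * D)) = 1 / 2 := by
      field_simp
      ring
    exact this.le
  obtain ⟨r, hr, hrr, δ1, hδ1, hU⟩ := hunif E U M f hs Q hQ.compact C N ctr L hC η 1 hη0 one_pos
  obtain ⟨ρ, hρ, hcl1⟩ := hcl E M Q hQ.compact C N ctr L hC r hr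
  refine ⟨ρ, hρ, ?_⟩
  intro u x z hx hz hd
  obtain ⟨T, Em, Ep, hS, hT⟩ := hB u x hx
  obtain ⟨P, hPd⟩ := hP T Em Ep hS
  have hxQ : ∀ t, phi f t x u ∈ Q := hx
  have hstep : ∀ t, phi f (t + 1) x u = f (u t) (phi f t x u) := fun t => hsucc E U M f u x t
  have hstepz : ∀ t, phi f (t + 1) z u = f (u t) (phi f t z u) := fun t => hsucc E U M f u z t
  have hfQ : ∀ t, f (u t) (phi f t x u) ∈ Q := fun t => by rw [← hstep]; exact hxQ _
  have hU' := fun t => hU (u t) (u t) (by rw [dist_self]; exact hδ1)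
    (phi f t x u) (hxQ t) (hfQ t)
  have hsrc := fun t => hcl1 (phi f t x u) (hxQ t) (phi f t z u) (hd t)
  have hsrcx : ∀ t, phi f t x u ∈ (extChartAt 𝓘(ℝ, E) (ctr (phi f t x u))).source := by
    intro t
    rw [extChartAt_source]
    exact hC.sub _ (hC.ctr_mem _ (hxQ t)) (hC.ctr_N _ (hxQ t))
  have hsrcz : ∀ t, phi f t z u ∈ (extChartAt 𝓘(ℝ, E) (ctr (phi f t x u))).source := by
    intro t
    rw [extChartAt_source]
    exact (hsrc t).1
  have key := huq E D lam hD0.le hl0 hl1 T P hPd η r hη0 hr hAη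
    (fun t e => loc E (ctr (phi f t x u)) (ctr (f (u t) (phi f t x u))) (f (u t))
        (extChartAt 𝓘(ℝ, E) (ctr (phi f t x u)) (phi f t x u) + e)
      - extChartAt 𝓘(ℝ, E) (ctr (f (u t) (phi f t x u))) (f (u t) (phi f t x u)))
    (by
      intro t e he e' he'
      have h := (hU' t).2.1 (extChartAt 𝓘(ℝ, E) (ctr (phi f t x u)) (phi f t x u) + e)
        (by simpa [Metric.mem_closedBall, dist_eq_norm] using he)
        (extChartAt 𝓘(ℝ, E) (ctr (phi f t x u)) (phi f t x u) + e')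
        (by simpa [Metric.mem_closedBall, dist_eq_norm] using he')
      rw [hT t]
      have e1 : extChartAt 𝓘(ℝ, E) (ctr (phi f t x u)) (phi f t x u) + e
          - (extChartAt 𝓘(ℝ, E) (ctr (phi f t x u)) (phi f t x u) + e') = e - e' := by abel
      rw [e1] at h
      have e2 : ∀ a b c : E, (a - c) - (b - c) = a - b := by intro a b c; abel
      rw [e2]
      exact h)
    (fun t => extChartAt 𝓘(ℝ, E) (ctr (phi f t x u)) (phi f t z u)
      - extChartAt 𝓘(ℝ, E) (ctr (phi f t x u)) (phi f t x u))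
    (fun _ => 0)
    (fun t => (hsrc t).2)
    (fun t => by simpa using hr.le)
    (by
      intro t
      have e1 : ∀ a b : E, a + (b - a) = b := by intro a b; abel
      simp only [e1, loc]
      rw [(extChartAt 𝓘(ℝ, E) (ctr (phi f t x u))).left_inv (hsrcz t), hstepz t, hstep t])
    (by
      intro t
      simp only [add_zero, loc]
      rw [(extChartAt 𝓘(ℝ, E) (ctr (phi f t x u))).left_inv (hsrcx t), sub_self])
  have h0 := congrFun key 0
  simp only [sub_eq_zero] at h0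
  have h00 := (extChartAt 𝓘(ℝ, E) (ctr (phi f 0 x u))).injOn (hsrcz 0) (hsrcx 0) h0
  exact h00

end Pool.Agent.Q87.CH
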