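import Pool.Agent.Q87.CH.Defs

/-!
# Controlled hyperbolic sets (MP_dedb2f_an): the lemma statements
-/

namespace Pool.Agent.Q87.CH

open scoped Manifold ContDiff Topology
open Bundle Set Filter

noncomputable section

/-! ## Abstract hyperbolic sequences -/

/-- A two-sided cocycle with projections: exponentially contracting forward on the range of
`P`, backward on the range of `1 - P`. -/
structure Dich {E : Type} [NormedAddCommGroup E] [NormedSpace ℝ E] (K lam : ℝ)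
    (T : ℤ → ℤ → (E →L[ℝ] E)) (P : ℤ → (E →L[ℝ] E)) : Prop where
  diag : ∀ t, T t t = ContinuousLinearMap.id ℝ E
  cocycle : ∀ r s t, (T r s).comp (T s t) = T r t
  comm : ∀ s t, (T s t).comp (P t) = (P s).comp (T s t)
  stable : ∀ (t : ℤ) (k : ℕ) (v : E), ‖T (t + k) t (P t v)‖ ≤ K * lam ^ k * ‖v‖
  unstable : ∀ (t : ℤ) (k : ℕ) (v : E), ‖T (t - k) t (v - P t v)‖ ≤ K * lam ^ k * ‖v‖

/-- A two-sided cocycle with invariant subspaces. -/
structure Spl {E : Type} [NormedAddCommGroup E] [NormedSpace ℝ E] (c lam K : ℝ)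
    (T : ℤ → ℤ → (E →L[ℝ] E)) (Em Ep : ℤ → Submodule ℝ E) : Prop where
  diag : ∀ t, T t t = ContinuousLinearMap.id ℝ E
  cocycle : ∀ r s t, (T r s).comp (T s t) = T r t
  compl : ∀ t, IsCompl (Em t) (Ep t)
  mapm : ∀ s t, ∀ v ∈ Em t, T s t v ∈ Em s
  mapp : ∀ s t, ∀ v ∈ Ep t, T s t v ∈ Ep s
  stable : ∀ (t : ℤ) (k : ℕ), ∀ v ∈ Em t, ‖T (t + k) t v‖ ≤ c * lam ^ k * ‖v‖
  unstable : ∀ (t : ℤ) (k : ℕ), ∀ v ∈ Ep t, ‖T (t - k) t v‖ ≤ c * lam ^ k * ‖v‖
  bdd : ∀ t : ℤ, ‖T (t + 1) t‖ ≤ K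

/-- Uniform projection bound.  PROOF: let `v = a + b`, `a ∈ Em t`, `b ∈ Ep t` (from `compl`), and
choose `N` (depending on `c, lam` only) with `c⁻¹ lam^(-N) - c lam^N ≥ 1`.  By `bdd` and
`cocycle`, `‖T (t+N) t‖ ≤ K^N` (`K ≥ 0` automatically).  Since `T t (t+N) (T (t+N) t b) = b` and
`T (t+N) t b ∈ Ep (t+N)`, `unstable` gives `‖b‖ ≤ c lam^N ‖T (t+N) t b‖`.  Hence
`K^N ‖v‖ ≥ ‖T (t+N) t v‖ ≥ ‖T (t+N) t b‖ - ‖T (t+N) t a‖ ≥ c⁻¹ lam^(-N) ‖b‖ - c lam^N ‖a‖` and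
`‖a‖ ≤ ‖v‖ + ‖b‖`, so `‖b‖ ≤ (K^N + c lam^N) ‖v‖`.  Take `P t` = the projection on `Em t` along
`Ep t` (e.g. `Submodule.IsCompl.projection` or `linearProjOfIsCompl`), made continuous by
`LinearMap.mkContinuous`; put `D = c * (1 + K^N + c lam^N)`, which works for both estimates
(use `comm` from `mapm`, `mapp`: `T s t a ∈ Em s`, `T s t b ∈ Ep s`). -/
def S_proj : Prop :=
  ∀ (E : Type) [NormedAddCommGroup E] [NormedSpace ℝ E] (c lam K : ℝ), 1 ≤ c → 0 < lam →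
    lam < 1 → ∃ D : ℝ, 1 ≤ D ∧ ∀ (T : ℤ → ℤ → (E →L[ℝ] E)) (Em Ep : ℤ → Submodule ℝ E),
      Spl c lam K T Em Ep → ∃ P : ℤ → (E →L[ℝ] E), Dich D lam T P

/-- Green's function.  PROOF: put
`z t = ∑_{k:ℕ} T t (t-k) (P (t-k) (h (t-k-1))) - ∑_{k:ℕ} T t (t+k+1) ((1-P (t+k+1)) (h (t+k)))`;
both series converge absolutely (terms bounded by `K lam^k B` and `K lam^(k+1) B`), whence
`‖z t‖ ≤ 2 K B / (1 - lam)`; apply `T (t+1) t` termwise (continuous linear maps commute with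
`tsum`), use `cocycle`, `diag`, and shift the index to get `z (t+1) = T (t+1) t (z t) + h t`
(`P (t+1) (h t) + (h t - P (t+1) (h t))` is the difference). -/
def S_green : Prop :=
  ∀ (E : Type) [NormedAddCommGroup E] [NormedSpace ℝ E] [CompleteSpace E] (K lam : ℝ), 0 ≤ K →
    0 < lam → lam < 1 → ∀ (T : ℤ → ℤ → (E →L[ℝ] E)) (P : ℤ → (E →L[ℝ] E)), Dich K lam T P →
    ∀ (B : ℝ) (h : ℤ → E), (∀ t, ‖h t‖ ≤ B) →
      ∃ z : ℤ → E, (∀ t, ‖z t‖ ≤ 2 * K / (1 - lam) * B) ∧ ∀ t, z (t + 1) = T (t + 1) t (z t) + h t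

/-- Uniqueness and bound for bounded solutions.  PROOF: iterate: for every `N : ℕ`,
`z t = T t (t-N) (z (t-N)) + ∑_{k<N} T t (t-k) (h (t-k-1))`; apply `P t`: with `comm`,
`‖P t (z t)‖ ≤ K lam^N R + ∑_{k<N} K lam^k B`.  Likewise `z t = T t (t+N) (z (t+N)) -
∑_{k<N} T t (t+k+1) (h (t+k))` and apply `1 - P t`.  Let `N → ∞`:
`‖z t‖ ≤ 2 K B / (1 - lam)`. -/
def S_bound : Prop :=
  ∀ (E : Type) [NormedAddCommGroup E] [NormedSpace ℝ E] (K lam : ℝ), 0 ≤ K →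
    0 < lam → lam < 1 → ∀ (T : ℤ → ℤ → (E →L[ℝ] E)) (P : ℤ → (E →L[ℝ] E)), Dich K lam T P →
    ∀ (B R : ℝ) (h z : ℤ → E), (∀ t, ‖h t‖ ≤ B) → (∀ t, ‖z t‖ ≤ R) →
      (∀ t, z (t + 1) = T (t + 1) t (z t) + h t) → ∀ t, ‖z t‖ ≤ 2 * K / (1 - lam) * B

/-- Nonlinear existence.  Let `A = 2 K / (1 - lam)` and `A * η ≤ 1/2`.  PROOF: for `h : ℤ → E`
bounded let `G h` be the solution given by `S_green`; by `S_bound` it is the only bounded
solution, so `G` is linear in the sense needed: for bounded `h, h'`, `G h - G h'` is a bounded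
solution for `h - h'`, hence `‖G h t - G h' t‖ ≤ A sup‖h - h'‖`.  On the complete metric space
of `y : ℤ → E` with `‖y t‖ ≤ r` for all `t` (closed ball of `BoundedContinuousFunction ℤ E`, or
of `lp (fun _ : ℤ => E) ⊤`), the map `y ↦ G (fun t => H t (y t) - T (t+1) t (y t))` maps the ball
to itself (`‖H t y - T (t+1) t y‖ ≤ η ‖y‖ + ‖H t 0‖ ≤ 2 η r`, `A * 2 η r ≤ r`) and contracts with
factor `A η ≤ 1/2`; its fixed point is the required sequence. -/
def S_exist : Prop :=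
  ∀ (E : Type) [NormedAddCommGroup E] [NormedSpace ℝ E] [CompleteSpace E] (K lam : ℝ), 0 ≤ K →
    0 < lam → lam < 1 → ∀ (T : ℤ → ℤ → (E →L[ℝ] E)) (P : ℤ → (E →L[ℝ] E)), Dich K lam T P →
    ∀ (η r : ℝ), 0 < η → 0 < r → 2 * K / (1 - lam) * η ≤ 1 / 2 →
    ∀ H : ℤ → E → E,
      (∀ t, ∀ y ∈ Metric.closedBall (0 : E) r, ∀ y' ∈ Metric.closedBall (0 : E) r,
        ‖H t y - H t y' - T (t + 1) t (y - y')‖ ≤ η * ‖y - y'‖) →
      (∀ t, ‖H t 0‖ ≤ η * r) →
      ∃ y : ℤ → E, (∀ t, ‖y t‖ ≤ r) ∧ ∀ t, y (t + 1) = H t (y t)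

/-- Nonlinear uniqueness.  PROOF: `z = y - y'` is bounded by `2 r` and solves
`z (t+1) = T (t+1) t (z t) + h t` with `‖h t‖ ≤ η ‖z t‖`.  By `S_bound` used repeatedly:
if `‖z t‖ ≤ R` for all `t` then `‖z t‖ ≤ A η R ≤ R / 2`; so `z = 0`. -/
def S_uniq : Prop :=
  ∀ (E : Type) [NormedAddCommGroup E] [NormedSpace ℝ E] (K lam : ℝ), 0 ≤ K →
    0 < lam → lam < 1 → ∀ (T : ℤ → ℤ → (E →L[ℝ] E)) (P : ℤ → (E →L[ℝ] E)), Dich K lam T P →
    ∀ (η r : ℝ), 0 < η → 0 < r → 2 * K / (1 - lam) * η ≤ 1 / 2 →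
    ∀ H : ℤ → E → E,
      (∀ t, ∀ y ∈ Metric.closedBall (0 : E) r, ∀ y' ∈ Metric.closedBall (0 : E) r,
        ‖H t y - H t y' - T (t + 1) t (y - y')‖ ≤ η * ‖y - y'‖) →
      ∀ y y' : ℤ → E, (∀ t, ‖y t‖ ≤ r) → (∀ t, ‖y' t‖ ≤ r) → (∀ t, y (t + 1) = H t (y t)) →
        (∀ t, y' (t + 1) = H t (y' t)) → y = y'

/-! ## Chains in the control space -/

/-- PROOF: fix `a0 : U`.  `S k = {b | ∃ chain of length ≤ k from a0 to b}` (consecutive distances
`< δ`, a chain may repeat points so exactly `k` steps is the same) is open and increasing, its union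
is clopen and nonempty, hence everything (`PreconnectedSpace`), so by compactness `S k = univ` for
some `k`; take `m = 2 k` and go through `a0`. -/
def S_chain : Prop :=
  ∀ (U : Type) [MetricSpace U] [CompactSpace U] [ConnectedSpace U] (δ : ℝ), 0 < δ →
    ∃ m : ℕ, ∀ a b : U, ∃ g : ℕ → U, g 0 = a ∧ g m = b ∧ ∀ i, dist (g i) (g (i + 1)) < δ

section Sys

variable (E : Type) [NormedAddCommGroup E] [NormedSpace ℝ E] [FiniteDimensional ℝ E] {U M : Type} [TopologicalSpace M] [ChartedSpace E M]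

/-! ## Chart data -/

/-- The coordinate map on the tangent space at `z` in the chart centred at `m`. -/
def tri [IsManifold 𝓘(ℝ, E) ∞ M] (m z : M) : TangentSpace 𝓘(ℝ, E) z →L[ℝ] E :=
  (trivializationAt E (TangentSpace 𝓘(ℝ, E)) m).continuousLinearMapAt ℝ z

/-- Its inverse. -/
def tris [IsManifold 𝓘(ℝ, E) ∞ M] (m z : M) : E →L[ℝ] TangentSpace 𝓘(ℝ, E) z :=
  (trivializationAt E (TangentSpace 𝓘(ℝ, E) (M := M)) m).symmL ℝ z

/-- The derivative of `g` at `z`, read in the chart centred at `m` (source) and `m'` (target). -/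
def rep [IsManifold 𝓘(ℝ, E) ∞ M] (m m' : M) (g : M → M) (z : M) : E →L[ℝ] E :=
  (tri E m' (g z)).comp ((mfderiv 𝓘(ℝ, E) 𝓘(ℝ, E) g z).comp (tris E m z))

/-- The map `g` read in the charts centred at `m` and `m'`. -/
def loc (m m' : M) (g : M → M) (y : E) : E :=
  extChartAt 𝓘(ℝ, E) m' (g ((extChartAt 𝓘(ℝ, E) m).symm y))

/-- A finite family of charts covering `Q` with compact cores `N m` on which the coordinate maps
are bounded by `L`; `ctr z` is the chosen centre for `z ∈ Q`. -/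
structure Chs [IsManifold 𝓘(ℝ, E) ∞ M] [RiemannianBundle (fun x : M => TangentSpace 𝓘(ℝ, E) x)]
    (Q : Set M) (C : Finset M) (N : M → Set M) (ctr : M → M) (L : ℝ) : Prop where
  ctr_mem : ∀ z ∈ Q, ctr z ∈ C
  ctr_N : ∀ z ∈ Q, z ∈ N (ctr z)
  comp : ∀ m ∈ C, IsCompact (N m)
  sub : ∀ m ∈ C, N m ⊆ (chartAt E m).source
  one_le : 1 ≤ L
  tri_le : ∀ m ∈ C, ∀ z ∈ N m, ∀ v : TangentSpace 𝓘(ℝ, E) z, ‖tri E m z v‖ ≤ L * ‖v‖
  tris_le : ∀ m ∈ C, ∀ z ∈ N m, ∀ e : E, ‖tris E m z e‖ ≤ L * ‖e‖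

end Sys

/-- PROOF: for every `m ∈ Q` the lemmas `eventually_norm_trivializationAt_lt` and
`eventually_norm_symmL_trivializationAt_lt` give constants and a neighbourhood of `m`; intersect
with `(chartAt _ m).source` and take a compact neighbourhood `N m` (local compactness:
`Manifold.locallyCompact_of_finiteDimensional` / `ChartedSpace.locallyCompactSpace`).  Finitely
many of the `interior (N m)` cover `Q`; `L` = the maximum of the constants and `1`. -/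
def S_chs : Prop :=
  ∀ (E : Type) [NormedAddCommGroup E] [NormedSpace ℝ E] [FiniteDimensional ℝ E] (M : Type) [TopologicalSpace M] [T2Space M] [ChartedSpace E M]
    [IsManifold 𝓘(ℝ, E) ∞ M] [RiemannianBundle (fun x : M => TangentSpace 𝓘(ℝ, E) x)]
    [IsContinuousRiemannianBundle E (fun x : M => TangentSpace 𝓘(ℝ, E) x)] (Q : Set M),
    IsCompact Q → ∃ (C : Finset M) (N : M → Set M) (ctr : M → M) (L : ℝ), Chs E Q C N ctr L

/-- The derivative of the local representative.  PROOF: chain rule for `mfderiv`, with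
`TangentBundle.continuousLinearMapAt_trivializationAt` and `TangentBundle.symmL_trivializationAt`
identifying `tri`, `tris` with the derivatives of `extChartAt` and its inverse (the model is
boundaryless: `range 𝓘(ℝ, E) = univ`). -/
def S_repderiv : Prop :=
  ∀ (E : Type) [NormedAddCommGroup E] [NormedSpace ℝ E] [FiniteDimensional ℝ E] (M : Type) [TopologicalSpace M] [T2Space M] [ChartedSpace E M]
    [IsManifold 𝓘(ℝ, E) ∞ M] (m m' : M) (g : M → M) (y : E),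
    y ∈ (extChartAt 𝓘(ℝ, E) m).target → MDifferentiableAt 𝓘(ℝ, E) 𝓘(ℝ, E) g ((extChartAt 𝓘(ℝ, E) m).symm y) →
    g ((extChartAt 𝓘(ℝ, E) m).symm y) ∈ (chartAt E m').source →
    HasFDerivAt (loc E m m' g) (rep E m m' g ((extChartAt 𝓘(ℝ, E) m).symm y)) y

/-- Joint continuity of the derivative in charts.  PROOF: for fixed `e`, the point
`(z, tris m z e)` of the tangent bundle (`z = (extChartAt m).symm y`) depends continuously on `y`
in the target (inverse of the trivialization at `m`); apply the continuous map of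
`cont_deriv`, then the trivialization at `m'` (continuous on its source), whose second component is
`rep m m' (f w) z e`.  Since `E` is finite-dimensional, `continuousOn_clm_apply` lifts this to
the operator norm. -/
def S_repcont : Prop :=
  ∀ (E : Type) [NormedAddCommGroup E] [NormedSpace ℝ E] [FiniteDimensional ℝ E] (U M : Type) [TopologicalSpace U] [TopologicalSpace M] [T2Space M]
    [ChartedSpace E M] [IsManifold 𝓘(ℝ, E) ∞ M]
    (f : U → Diffeomorph 𝓘(ℝ, E) 𝓘(ℝ, E) M M 1), IsSystem f → ∀ (m m' : M),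
    ContinuousOn (fun p : U × E => rep E m m' (f p.1) ((extChartAt 𝓘(ℝ, E) m).symm p.2))
      {p : U × E | p.2 ∈ (extChartAt 𝓘(ℝ, E) m).target ∧
        f p.1 ((extChartAt 𝓘(ℝ, E) m).symm p.2) ∈ (chartAt E m').source}

/-- The uniform estimate (assembly of the two previous ones and compactness). -/
def S_unif : Prop :=
  ∀ (E : Type) [NormedAddCommGroup E] [NormedSpace ℝ E] [FiniteDimensional ℝ E] (U M : Type) [MetricSpace U] [CompactSpace U] [TopologicalSpace M] [T2Space M]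
    [ChartedSpace E M] [IsManifold 𝓘(ℝ, E) ∞ M]
    [RiemannianBundle (fun x : M => TangentSpace 𝓘(ℝ, E) x)]
    (f : U → Diffeomorph 𝓘(ℝ, E) 𝓘(ℝ, E) M M 1), IsSystem f → ∀ (Q : Set M), IsCompact Q →
    ∀ (C : Finset M) (N : M → Set M) (ctr : M → M) (L : ℝ), Chs E Q C N ctr L →
    ∀ (η r0 : ℝ), 0 < η → 0 < r0 → ∃ r : ℝ, 0 < r ∧ r ≤ r0 ∧ ∃ δ : ℝ, 0 < δ ∧
      ∀ (v w : U), dist v w < δ → ∀ x ∈ Q, f v x ∈ Q →
        (∀ y ∈ Metric.closedBall (extChartAt 𝓘(ℝ, E) (ctr x) x) r,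
          y ∈ (extChartAt 𝓘(ℝ, E) (ctr x)).target ∧
          f w ((extChartAt 𝓘(ℝ, E) (ctr x)).symm y) ∈ (chartAt E (ctr (f v x))).source) ∧
        (∀ y ∈ Metric.closedBall (extChartAt 𝓘(ℝ, E) (ctr x) x) r,
          ∀ y' ∈ Metric.closedBall (extChartAt 𝓘(ℝ, E) (ctr x) x) r,
          ‖loc E (ctr x) (ctr (f v x)) (f w) y - loc E (ctr x) (ctr (f v x)) (f w) y'
            - rep E (ctr x) (ctr (f v x)) (f v) x (y - y')‖ ≤ η * ‖y - y'‖) ∧
        ‖loc E (ctr x) (ctr (f v x)) (f w) (extChartAt 𝓘(ℝ, E) (ctr x) x)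
          - extChartAt 𝓘(ℝ, E) (ctr (f v x)) (f v x)‖ ≤ η * r

/-- One-step bound.  PROOF: for `m, m' ∈ C` the set of `(v, y)` with `y = extChartAt m x`,
`x ∈ N m ∩ Q`, `f v x ∈ N m'` is compact (continuous image of a compact set) and contained in the
set of `S_repcont`, so the operator norm is bounded on it; `C` is finite. -/
def S_repbdd : Prop :=
  ∀ (E : Type) [NormedAddCommGroup E] [NormedSpace ℝ E] [FiniteDimensional ℝ E] (U M : Type) [MetricSpace U] [CompactSpace U] [TopologicalSpace M] [T2Space M]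
    [ChartedSpace E M] [IsManifold 𝓘(ℝ, E) ∞ M]
    [RiemannianBundle (fun x : M => TangentSpace 𝓘(ℝ, E) x)]
    (f : U → Diffeomorph 𝓘(ℝ, E) 𝓘(ℝ, E) M M 1), IsSystem f → ∀ (Q : Set M), IsCompact Q →
    ∀ (C : Finset M) (N : M → Set M) (ctr : M → M) (L : ℝ), Chs E Q C N ctr L →
    ∃ K : ℝ, 1 ≤ K ∧ ∀ (v : U), ∀ x ∈ Q, f v x ∈ Q →
      ‖rep E (ctr x) (ctr (f v x)) (f v) x‖ ≤ K

/-- Chart balls are small in the metric `dM`.  PROOF: for `m ∈ C` use compactness of `N m` and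
continuity of `(extChartAt m).symm` on the (open) target
(`IsCompact.uniformContinuousAt_of_continuousAt` on `extChartAt m '' N m`). -/
def S_close1 : Prop :=
  ∀ (E : Type) [NormedAddCommGroup E] [NormedSpace ℝ E] [FiniteDimensional ℝ E] (M : Type) [MetricSpace M] [ChartedSpace E M] [IsManifold 𝓘(ℝ, E) ∞ M]
    [RiemannianBundle (fun x : M => TangentSpace 𝓘(ℝ, E) x)] (Q : Set M), IsCompact Q →
    ∀ (C : Finset M) (N : M → Set M) (ctr : M → M) (L : ℝ), Chs E Q C N ctr L →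
    ∀ ρ : ℝ, 0 < ρ → ∃ r : ℝ, 0 < r ∧ ∀ x ∈ Q,
      ∀ y ∈ Metric.closedBall (extChartAt 𝓘(ℝ, E) (ctr x) x) r,
        y ∈ (extChartAt 𝓘(ℝ, E) (ctr x)).target ∧ dist ((extChartAt 𝓘(ℝ, E) (ctr x)).symm y) x < ρ

/-- Metric balls are small in the charts.  PROOF: as `S_close1`. -/
def S_close2 : Prop :=
  ∀ (E : Type) [NormedAddCommGroup E] [NormedSpace ℝ E] [FiniteDimensional ℝ E] (M : Type) [MetricSpace M] [ChartedSpace E M] [IsManifold 𝓘(ℝ, E) ∞ M]
    [RiemannianBundle (fun x : M => TangentSpace 𝓘(ℝ, E) x)] (Q : Set M), IsCompact Q →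
    ∀ (C : Finset M) (N : M → Set M) (ctr : M → M) (L : ℝ), Chs E Q C N ctr L →
    ∀ r : ℝ, 0 < r → ∃ ρ : ℝ, 0 < ρ ∧ ∀ x ∈ Q, ∀ z : M, dist z x ≤ ρ →
        z ∈ (chartAt E (ctr x)).source ∧
        ‖extChartAt 𝓘(ℝ, E) (ctr x) z - extChartAt 𝓘(ℝ, E) (ctr x) x‖ ≤ r

/-! ## Dynamics -/

/-- The transition map over `ℤ`: one step. PROOF: by cases on the sign of `t`. -/
def S_phisucc : Prop :=
  ∀ (E : Type) [NormedAddCommGroup E] [NormedSpace ℝ E] [FiniteDimensional ℝ E] (U M : Type) [TopologicalSpace M] [ChartedSpace E M]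
    (f : U → Diffeomorph 𝓘(ℝ, E) 𝓘(ℝ, E) M M 1) (u : ℤ → U) (x : M) (t : ℤ),
    phi f (t + 1) x u = f (u t) (phi f t x u)

/-- An orbit sequence is given by `phi`. PROOF: `Int.induction_on` with `S_phisucc`, injectivity
of `f (u t)` for the backward steps. -/
def S_phiuniq : Prop :=
  ∀ (E : Type) [NormedAddCommGroup E] [NormedSpace ℝ E] [FiniteDimensional ℝ E] (U M : Type) [TopologicalSpace M] [ChartedSpace E M]
    (f : U → Diffeomorph 𝓘(ℝ, E) 𝓘(ℝ, E) M M 1) (u : ℤ → U) (z : ℤ → M),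
    (∀ t, z (t + 1) = f (u t) (z t)) → ∀ t, z t = phi f t (z 0) u

/-- Cocycle property. PROOF: `S_phiuniq` applied to `t ↦ phi f (t + s) x u` with control
`sh s u`. -/
def S_phiadd : Prop :=
  ∀ (E : Type) [NormedAddCommGroup E] [NormedSpace ℝ E] [FiniteDimensional ℝ E] (U M : Type) [TopologicalSpace M] [ChartedSpace E M]
    (f : U → Diffeomorph 𝓘(ℝ, E) 𝓘(ℝ, E) M M 1) (u : ℤ → U) (x : M) (t s : ℤ),
    phi f (t + s) x u = phi f t (phi f s x u) (sh s u)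

/-- Joint continuity and differentiability. PROOF: induction on `|t|`. -/
def S_phicont : Prop :=
  ∀ (E : Type) [NormedAddCommGroup E] [NormedSpace ℝ E] [FiniteDimensional ℝ E] (U M : Type) [TopologicalSpace U] [TopologicalSpace M] [ChartedSpace E M]
    [IsManifold 𝓘(ℝ, E) ∞ M] (f : U → Diffeomorph 𝓘(ℝ, E) 𝓘(ℝ, E) M M 1), IsSystem f → ∀ t : ℤ,
    Continuous (fun p : (ℤ → U) × M => phi f t p.2 p.1) ∧
    ∀ u : ℤ → U, MDifferentiable 𝓘(ℝ, E) 𝓘(ℝ, E) (fun y => phi f t y u)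

/-- The lift is closed, compact and invariant. PROOF: `S_phicont`, `IsCompact Q` closed in the
Hausdorff space `M`, `L(Q) ⊆ univ ×ˢ Q` (take `t = 0`), `(ℤ → U)` compact; invariance from
`S_phiadd`. -/
def S_lift : Prop :=
  ∀ (E : Type) [NormedAddCommGroup E] [NormedSpace ℝ E] [FiniteDimensional ℝ E] (U M : Type) [TopologicalSpace U] [CompactSpace U] [TopologicalSpace M] [T2Space M]
    [ChartedSpace E M] [IsManifold 𝓘(ℝ, E) ∞ M] (f : U → Diffeomorph 𝓘(ℝ, E) 𝓘(ℝ, E) M M 1),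
    IsSystem f → ∀ Q : Set M, IsCompact Q → IsClosed (Lift f Q) ∧ IsCompact (Lift f Q) ∧
      ∀ p ∈ Lift f Q, ∀ t : ℤ, Phi f t p ∈ Lift f Q

/-- Uniform isolation. PROOF: let `O` be the open set in `IsolatedLift`.  As `L(Q)` is compact
there is a `δ` such that every `(w, z)` with `dist (v t) (w t) ≤ δ` for all `t` and
`dist z x ≤ δ` for some `(v, x) ∈ L(Q)` is in `O` (a thickening in the product uniformity:
e.g. sequences/ultrafilters, or `IsCompact.exists_...`).  If `(w, z)` is such that for every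
`t` the point `phi f t z w` is `δ`-close to `phi f t x v` and the controls are `δ`-close then the
orbit `S = {Phi f t (w, z) | t}` is invariant and contained in `O`, so `(w, z) ∈ L(Q)`. -/
def S_isol : Prop :=
  ∀ (E : Type) [NormedAddCommGroup E] [NormedSpace ℝ E] [FiniteDimensional ℝ E] (U M : Type) [MetricSpace U] [CompactSpace U] [MetricSpace M]
    [ChartedSpace E M] [IsManifold 𝓘(ℝ, E) ∞ M] (f : U → Diffeomorph 𝓘(ℝ, E) 𝓘(ℝ, E) M M 1),
    IsSystem f → ∀ Q : Set M, IsCompact Q → IsolatedLift f Q → ∃ δ : ℝ, 0 < δ ∧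
      ∀ (v w : ℤ → U) (x z : M), (v, x) ∈ Lift f Q → (∀ t, dist (v t) (w t) ≤ δ) →
        (∀ t, dist (phi f t z w) (phi f t x v) ≤ δ) → (w, z) ∈ Lift f Q

/-- The bridge between the hyperbolic set and abstract hyperbolic sequences.  PROOF: with `x_t =
phi f t x u`, `T s t = rep (ctr x_t) (ctr x_s) (phi f (s-t) · (sh t u)) x_t`,
`Em' t = (Em (sh t u) x_t).map (tri (ctr x_t) x_t)`; chain rule for `rep`. -/
def S_bridge : Prop :=
  ∀ (E : Type) [NormedAddCommGroup E] [NormedSpace ℝ E] [FiniteDimensional ℝ E] (U M : Type) [MetricSpace U] [CompactSpace U] [TopologicalSpace M] [T2Space M]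
    [ChartedSpace E M] [IsManifold 𝓘(ℝ, E) ∞ M]
    [RiemannianBundle (fun x : M => TangentSpace 𝓘(ℝ, E) x)]
    (f : U → Diffeomorph 𝓘(ℝ, E) 𝓘(ℝ, E) M M 1), IsSystem f → ∀ (Q : Set M), IsHyperbolic f Q →
    ∀ (C : Finset M) (N : M → Set M) (ctr : M → M) (L : ℝ), Chs E Q C N ctr L →
    ∃ c lam K : ℝ, 1 ≤ c ∧ 0 < lam ∧ lam < 1 ∧ ∀ (u : ℤ → U) (x : M), (u, x) ∈ Lift f Q →
      ∃ (T : ℤ → ℤ → (E →L[ℝ] E)) (Em Ep : ℤ → Submodule ℝ E),
        Spl c lam K T Em Ep ∧ ∀ t : ℤ, T (t + 1) t =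
          rep E (ctr (phi f t x u)) (ctr (f (u t) (phi f t x u))) (f (u t)) (phi f t x u)

/-- Shadowing. -/
def S_shadow : Prop :=
  ∀ (E : Type) [NormedAddCommGroup E] [NormedSpace ℝ E] [FiniteDimensional ℝ E] (U M : Type) [MetricSpace U] [CompactSpace U] [MetricSpace M]
    [ChartedSpace E M] [IsManifold 𝓘(ℝ, E) ∞ M]
    [RiemannianBundle (fun x : M => TangentSpace 𝓘(ℝ, E) x)]
    [IsContinuousRiemannianBundle E (fun x : M => TangentSpace 𝓘(ℝ, E) x)]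
    (f : U → Diffeomorph 𝓘(ℝ, E) 𝓘(ℝ, E) M M 1), IsSystem f → ∀ (Q : Set M), IsHyperbolic f Q →
    IsolatedLift f Q → ∀ ρ : ℝ, 0 < ρ → ∃ δ : ℝ, 0 < δ ∧
      ∀ (v w : ℤ → U), (∀ t, dist (v t) (w t) < δ) → ∀ x : M, (v, x) ∈ Lift f Q →
        ∃ z : M, (w, z) ∈ Lift f Q ∧ ∀ t, dist (phi f t z w) (phi f t x v) ≤ ρ

/-- Expansiveness. -/
def S_expans : Prop :=
  ∀ (E : Type) [NormedAddCommGroup E] [NormedSpace ℝ E] [FiniteDimensional ℝ E] (U M : Type) [MetricSpace U] [CompactSpace U] [MetricSpace M]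
    [ChartedSpace E M] [IsManifold 𝓘(ℝ, E) ∞ M]
    [RiemannianBundle (fun x : M => TangentSpace 𝓘(ℝ, E) x)]
    [IsContinuousRiemannianBundle E (fun x : M => TangentSpace 𝓘(ℝ, E) x)]
    (f : U → Diffeomorph 𝓘(ℝ, E) 𝓘(ℝ, E) M M 1), IsSystem f → ∀ (Q : Set M), IsHyperbolic f Q →
    ∃ ρ : ℝ, 0 < ρ ∧ ∀ (u : ℤ → U) (x z : M), (u, x) ∈ Lift f Q → (u, z) ∈ Lift f Q →
      (∀ t, dist (phi f t z u) (phi f t x u) ≤ ρ) → z = x

/-- The topological end of the proof (ultrafilters). -/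
def S_final : Prop :=
  ∀ (E : Type) [NormedAddCommGroup E] [NormedSpace ℝ E] [FiniteDimensional ℝ E] (U M : Type) [MetricSpace U] [CompactSpace U] [ConnectedSpace U] [MetricSpace M]
    [ChartedSpace E M] [IsManifold 𝓘(ℝ, E) ∞ M] (f : U → Diffeomorph 𝓘(ℝ, E) 𝓘(ℝ, E) M M 1),
    IsSystem f → ∀ (Q : Set M), IsCompact Q →
    (∃ ρ : ℝ, 0 < ρ ∧ ∀ (u : ℤ → U) (x z : M), (u, x) ∈ Lift f Q → (u, z) ∈ Lift f Q →
      (∀ t, dist (phi f t z u) (phi f t x u) ≤ ρ) → z = x) →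
    (∀ ρ : ℝ, 0 < ρ → ∃ δ : ℝ, 0 < δ ∧
      ∀ (v w : ℤ → U), (∀ t, dist (v t) (w t) < δ) → ∀ x : M, (v, x) ∈ Lift f Q →
        ∃ z : M, (w, z) ∈ Lift f Q ∧ ∀ t, dist (phi f t z w) (phi f t x v) ≤ ρ) →
    FiberLSC f Q

end

end Pool.Agent.Q87.CH
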