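import Pool.Agent.Q87.CH.Stm

namespace Pool.Agent.Q87.CH

open scoped Manifold ContDiff Topology
open Bundle Set Filter

noncomputable section

section Pair

variable {E : Type} [NormedAddCommGroup E] [NormedSpace ℝ E] [FiniteDimensional ℝ E] {U M : Type} [MetricSpace U] [CompactSpace U] [TopologicalSpace M] [T2Space M]
  [ChartedSpace E M] [IsManifold 𝓘(ℝ, E) ∞ M]

/-- The domain of the local representative. -/
def dom (E : Type) [NormedAddCommGroup E] [NormedSpace ℝ E] [FiniteDimensional ℝ E] {U M : Type} [TopologicalSpace M] [ChartedSpace E M]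
    (f : U → Diffeomorph 𝓘(ℝ, E) 𝓘(ℝ, E) M M 1) (m m' : M) : Set (U × E) :=
  {p : U × E | p.2 ∈ (extChartAt 𝓘(ℝ, E) m).target ∧
        f p.1 ((extChartAt 𝓘(ℝ, E) m).symm p.2) ∈ (chartAt E m').source}

theorem cont_fsymm (f : U → Diffeomorph 𝓘(ℝ, E) 𝓘(ℝ, E) M M 1) (hs : IsSystem f) (m : M) :
    ContinuousOn (fun p : U × E => f p.1 ((extChartAt 𝓘(ℝ, E) m).symm p.2))
      {p : U × E | p.2 ∈ (extChartAt 𝓘(ℝ, E) m).target} := by
  have h1 : ContinuousOn (fun p : U × E => (p.1, (extChartAt 𝓘(ℝ, E) m).symm p.2))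
      {p : U × E | p.2 ∈ (extChartAt 𝓘(ℝ, E) m).target} :=
    continuousOn_fst.prodMk ((continuousOn_extChartAt_symm (I := 𝓘(ℝ, E)) m).comp continuousOn_snd
      (fun p hp => hp))
  exact hs.cont.comp_continuousOn h1

theorem dom_open (f : U → Diffeomorph 𝓘(ℝ, E) 𝓘(ℝ, E) M M 1) (hs : IsSystem f) (m m' : M) :
    IsOpen (dom E f m m') := by
  have h1 : IsOpen {p : U × E | p.2 ∈ (extChartAt 𝓘(ℝ, E) m).target} :=
    (isOpen_extChartAt_target (I := 𝓘(ℝ, E)) m).preimage continuous_snd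
  have h2 := (cont_fsymm f hs m).isOpen_inter_preimage h1 (chartAt E m').open_source
  exact h2

theorem loc_cont (f : U → Diffeomorph 𝓘(ℝ, E) 𝓘(ℝ, E) M M 1) (hs : IsSystem f) (m m' : M) :
    ContinuousOn (fun p : U × E => loc E m m' (f p.1) p.2) (dom E f m m') := by
  have h1 := (cont_fsymm f hs m).mono (fun p (hp : p ∈ dom E f m m') => hp.1)
  refine (continuousOn_extChartAt (I := 𝓘(ℝ, E)) m').comp h1 ?_
  intro p hp
  rw [extChartAt_source]
  exact hp.2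

/-- The compact set of base points of a pair of charts. -/
def core (E : Type) [NormedAddCommGroup E] [NormedSpace ℝ E] [FiniteDimensional ℝ E] {U M : Type} [TopologicalSpace M] [ChartedSpace E M]
    (f : U → Diffeomorph 𝓘(ℝ, E) 𝓘(ℝ, E) M M 1) (Q : Set M)
    (m : M) (A B : Set M) : Set (U × E) :=
  (fun p : U × M => (p.1, extChartAt 𝓘(ℝ, E) m p.2)) '' {p : U × M | p.2 ∈ A ∩ Q ∧ f p.1 p.2 ∈ B}

theorem core_compact (f : U → Diffeomorph 𝓘(ℝ, E) 𝓘(ℝ, E) M M 1) (hs : IsSystem f) (Q : Set M)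
    (hQ : IsCompact Q) (m : M) (A B : Set M) (hA : IsCompact A) (hB : IsCompact B)
    (hAs : A ⊆ (chartAt E m).source) : IsCompact (core E f Q m A B) := by
  have h1 : IsCompact {p : U × M | p.2 ∈ A ∩ Q ∧ f p.1 p.2 ∈ B} := by
    have h2 : IsCompact ((univ : Set U) ×ˢ (A ∩ Q)) := isCompact_univ.prod (hA.inter hQ)
    have h3 : IsClosed {p : U × M | f p.1 p.2 ∈ B} := hB.isClosed.preimage hs.cont
    have h4 := h2.inter_right h3
    convert h4 using 1
    ext p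
    simp only [mem_ofPred_eq, mem_inter_iff, mem_prod, mem_univ, true_and]
  refine h1.image_of_continuousOn ?_
  refine continuousOn_fst.prodMk ((continuousOn_extChartAt (I := 𝓘(ℝ, E)) m).comp continuousOn_snd ?_)
  intro p hp
  rw [extChartAt_source]
  exact hAs hp.1.1

theorem core_sub (f : U → Diffeomorph 𝓘(ℝ, E) 𝓘(ℝ, E) M M 1) (Q : Set M)
    (m m' : M) (A B : Set M) (hAs : A ⊆ (chartAt E m).source)
    (hBs : B ⊆ (chartAt E m').source) : core E f Q m A B ⊆ dom E f m m' := by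
  rintro _ ⟨p, hp, rfl⟩
  have hsrc : p.2 ∈ (extChartAt 𝓘(ℝ, E) m).source := by
    rw [extChartAt_source]
    exact hAs hp.1.1
  refine ⟨(extChartAt 𝓘(ℝ, E) m).map_source hsrc, ?_⟩
  simp only
  rw [(extChartAt 𝓘(ℝ, E) m).left_inv hsrc]
  exact hBs hp.2

theorem unif_pair (h9 : S_repcont) (f : U → Diffeomorph 𝓘(ℝ, E) 𝓘(ℝ, E) M M 1) (hs : IsSystem f)
    (Q : Set M) (hQ : IsCompact Q) (m m' : M) (A B : Set M) (hA : IsCompact A) (hB : IsCompact B)
    (hAs : A ⊆ (chartAt E m).source) (hBs : B ⊆ (chartAt E m').source)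
    (η : ℝ) (hη : 0 < η) : ∃ δ : ℝ, 0 < δ ∧ ∀ (v w : U) (x : M), x ∈ A → x ∈ Q → f v x ∈ B →
      dist v w < δ → ∀ y : E, dist y (extChartAt 𝓘(ℝ, E) m x) < δ →
        (w, y) ∈ dom E f m m' ∧
        ‖rep E m m' (f w) ((extChartAt 𝓘(ℝ, E) m).symm y) - rep E m m' (f v) x‖ ≤ η := by
  have hc := core_compact f hs Q hQ m A B hA hB hAs
  have hsub := core_sub f Q m m' A B hAs hBs
  have hopen := dom_open f hs m m'
  obtain ⟨δ1, hδ1, h1⟩ := hc.exists_thickening_subset_open hopen hsub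
  have h2 := hc.uniformContinuousAt_of_continuousAt
    (fun p : U × E => rep E m m' (f p.1) ((extChartAt 𝓘(ℝ, E) m).symm p.2))
    (fun p hp => (h9 E U M f hs m m').continuousAt (hopen.mem_nhds (hsub hp)))
    (Metric.dist_mem_uniformity hη)
  obtain ⟨δ2, hδ2, h3⟩ := Metric.mem_uniformity_dist.1 h2
  refine ⟨min δ1 δ2, lt_min hδ1 hδ2, ?_⟩
  intro v w x hxA hxQ hfB hvw y hy
  have hmem : (v, extChartAt 𝓘(ℝ, E) m x) ∈ core E f Q m A B := ⟨(v, x), ⟨⟨hxA, hxQ⟩, hfB⟩, rfl⟩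
  have hd : dist (v, extChartAt 𝓘(ℝ, E) m x) (w, y) < min δ1 δ2 := by
    rw [Prod.dist_eq]
    refine max_lt hvw ?_
    simp only
    rw [dist_comm]
    exact hy
  refine ⟨h1 ?_, ?_⟩
  · rw [Metric.mem_thickening_iff]
    refine ⟨_, hmem, ?_⟩
    rw [dist_comm]
    exact hd.trans_le (min_le_left _ _)
  · have h4 := h3 (hd.trans_le (min_le_right _ _)) hmem
    have hsrc : x ∈ (extChartAt 𝓘(ℝ, E) m).source := by
      rw [extChartAt_source]
      exact hAs hxA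
    simp only [mem_ofPred_eq] at h4
    rw [(extChartAt 𝓘(ℝ, E) m).left_inv hsrc, dist_comm, dist_eq_norm] at h4
    exact h4.le

theorem unif_pair2 (f : U → Diffeomorph 𝓘(ℝ, E) 𝓘(ℝ, E) M M 1) (hs : IsSystem f)
    (Q : Set M) (hQ : IsCompact Q) (m m' : M) (A B : Set M) (hA : IsCompact A) (hB : IsCompact B)
    (hAs : A ⊆ (chartAt E m).source) (hBs : B ⊆ (chartAt E m').source)
    (η : ℝ) (hη : 0 < η) : ∃ δ : ℝ, 0 < δ ∧ ∀ (v w : U) (x : M), x ∈ A → x ∈ Q → f v x ∈ B →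
      dist v w < δ → ‖loc E m m' (f w) (extChartAt 𝓘(ℝ, E) m x)
        - extChartAt 𝓘(ℝ, E) m' (f v x)‖ ≤ η := by
  have hc := core_compact f hs Q hQ m A B hA hB hAs
  have hsub := core_sub f Q m m' A B hAs hBs
  have hopen := dom_open f hs m m'
  have h2 := hc.uniformContinuousAt_of_continuousAt
    (fun p : U × E => loc E m m' (f p.1) p.2)
    (fun p hp => (loc_cont f hs m m').continuousAt (hopen.mem_nhds (hsub hp)))
    (Metric.dist_mem_uniformity hη)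
  obtain ⟨δ2, hδ2, h3⟩ := Metric.mem_uniformity_dist.1 h2
  refine ⟨δ2, hδ2, ?_⟩
  intro v w x hxA hxQ hfB hvw
  have hmem : (v, extChartAt 𝓘(ℝ, E) m x) ∈ core E f Q m A B := ⟨(v, x), ⟨⟨hxA, hxQ⟩, hfB⟩, rfl⟩
  have hd : dist (v, extChartAt 𝓘(ℝ, E) m x) (w, extChartAt 𝓘(ℝ, E) m x) < δ2 := by
    rw [Prod.dist_eq]
    refine max_lt hvw ?_
    simp only
    rw [dist_self]
    exact hδ2
  have h4 := h3 hd hmem
  have hsrc : x ∈ (extChartAt 𝓘(ℝ, E) m).source := by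
    rw [extChartAt_source]
    exact hAs hxA
  simp only [mem_ofPred_eq] at h4
  have h5 : loc E m m' (f v) (extChartAt 𝓘(ℝ, E) m x) = extChartAt 𝓘(ℝ, E) m' (f v x) := by
    simp only [loc]
    rw [(extChartAt 𝓘(ℝ, E) m).left_inv hsrc]
  rw [h5, dist_comm, dist_eq_norm] at h4
  exact h4.le

end Pair

/-- Finitely many positive thresholds have a common one. -/
theorem common {α : Type} (C : Finset α) (P : α → α → ℝ → Prop)
    (hmono : ∀ a b d d', 0 < d' → d' ≤ d → P a b d → P a b d')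
    (h : ∀ a ∈ C, ∀ b ∈ C, ∃ d : ℝ, 0 < d ∧ P a b d) :
    ∃ d : ℝ, 0 < d ∧ ∀ a ∈ C, ∀ b ∈ C, P a b d := by
  have h1 : ∀ᶠ d : ℝ in 𝓝[>] 0, ∀ a ∈ C, ∀ b ∈ C, P a b d := by
    rw [Filter.eventually_all_finset]
    intro a ha
    rw [Filter.eventually_all_finset]
    intro b hb
    obtain ⟨d, hd, hP⟩ := h a ha b hb
    filter_upwards [Ioc_mem_nhdsGT hd] with d' hd'
    exact hmono a b d d' hd'.1 hd'.2 hP
  obtain ⟨d, hd, hd0⟩ := (h1.and self_mem_nhdsWithin).exists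
  exact ⟨d, hd0, hd⟩

theorem unif (h8 : S_repderiv) (h9 : S_repcont) : S_unif := by
  intro E _ _ _ U M _ _ _ _ _ _ _ f hs Q hQ C N ctr L hC η r0 hη hr0
  obtain ⟨d1, hd1, h1⟩ := common C (fun m m' δ => ∀ (v w : U) (x : M), x ∈ N m → x ∈ Q →
      f v x ∈ N m' → dist v w < δ → ∀ y : E, dist y (extChartAt 𝓘(ℝ, E) m x) < δ →
        (w, y) ∈ dom E f m m' ∧
        ‖rep E m m' (f w) ((extChartAt 𝓘(ℝ, E) m).symm y) - rep E m m' (f v) x‖ ≤ η)
    (fun m m' d d' _ hdd h v w x hx hxQ hfx hvw y hy =>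
      h v w x hx hxQ hfx (hvw.trans_le hdd) y (hy.trans_le hdd))
    (fun m hm m' hm' => unif_pair h9 f hs Q hQ m m' (N m) (N m') (hC.comp m hm) (hC.comp m' hm')
      (hC.sub m hm) (hC.sub m' hm') η hη)
  set r : ℝ := min r0 (d1 / 2) with hr
  have hr0' : 0 < r := lt_min hr0 (by linarith)
  have hrd : r < d1 := (min_le_right _ _).trans_lt (by linarith)
  obtain ⟨d2, hd2, h2⟩ := common C (fun m m' δ => ∀ (v w : U) (x : M), x ∈ N m → x ∈ Q →
      f v x ∈ N m' → dist v w < δ → ‖loc E m m' (f w) (extChartAt 𝓘(ℝ, E) m x)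
        - extChartAt 𝓘(ℝ, E) m' (f v x)‖ ≤ η * r)
    (fun m m' d d' _ hdd h v w x hx hxQ hfx hvw =>
      h v w x hx hxQ hfx (hvw.trans_le hdd))
    (fun m hm m' hm' => unif_pair2 f hs Q hQ m m' (N m) (N m') (hC.comp m hm) (hC.comp m' hm')
      (hC.sub m hm) (hC.sub m' hm') (η * r) (mul_pos hη hr0'))
  refine ⟨r, hr0', min_le_left _ _, min d1 d2, lt_min hd1 hd2, ?_⟩
  intro v w hvw x hxQ hfxQ
  have hm := hC.ctr_mem x hxQ
  have hm' := hC.ctr_mem (f v x) hfxQ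
  have key : ∀ y ∈ Metric.closedBall (extChartAt 𝓘(ℝ, E) (ctr x) x) r,
      (w, y) ∈ dom E f (ctr x) (ctr (f v x)) ∧
        ‖rep E (ctr x) (ctr (f v x)) (f w) ((extChartAt 𝓘(ℝ, E) (ctr x)).symm y)
          - rep E (ctr x) (ctr (f v x)) (f v) x‖ ≤ η := by
    intro y hy
    exact h1 _ hm _ hm' v w x (hC.ctr_N x hxQ) hxQ (hC.ctr_N _ hfxQ)
      (hvw.trans_le (min_le_left _ _)) y ((Metric.mem_closedBall.1 hy).trans_lt hrd)
  refine ⟨fun y hy => (key y hy).1, ?_, ?_⟩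
  · intro y hy y' hy'
    have hder : ∀ z ∈ Metric.closedBall (extChartAt 𝓘(ℝ, E) (ctr x) x) r,
        HasFDerivWithinAt (loc E (ctr x) (ctr (f v x)) (f w))
          (rep E (ctr x) (ctr (f v x)) (f w) ((extChartAt 𝓘(ℝ, E) (ctr x)).symm z))
          (Metric.closedBall (extChartAt 𝓘(ℝ, E) (ctr x) x) r) z := by
      intro z hz
      have hz' := (key z hz).1
      refine (h8 E M (ctr x) (ctr (f v x)) (f w) z hz'.1 ?_ hz'.2).hasFDerivWithinAt
      exact (f w).mdifferentiable (by norm_num) _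
    exact Convex.norm_image_sub_le_of_norm_hasFDerivWithin_le' hder (fun z hz => (key z hz).2)
      (convex_closedBall _ _) hy' hy
  · exact h2 _ hm _ hm' v w x (hC.ctr_N x hxQ) hxQ (hC.ctr_N _ hfxQ)
      (hvw.trans_le (min_le_right _ _))

end

end Pool.Agent.Q87.CH
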