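import Pool.Agent.Q87.CH.Stm

/-!
# Controlled hyperbolic sets: nonlinear uniqueness (helper144)
-/

namespace Pool.Agent.Q87.CH

open Filter Topology

noncomputable section

/-- Nonlinear uniqueness. -/
theorem uniq (hb : S_bound) : S_uniq := by
  intro E _ _ K lam hK hl0 hl1 T P D η r hη hr hA H hH y y' hy hy' hyH hyH'
  have key : ∀ N : ℕ, ∀ t, ‖y t - y' t‖ ≤ 2 * r * (1 / 2) ^ N := by
    intro N
    induction N with
    | zero =>
      intro t
      rw [pow_zero, mul_one]
      refine (norm_sub_le _ _).trans ?_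
      linarith [hy t, hy' t]
    | succ N ih =>
      have h1 : ∀ t, ‖y (t + 1) - y' (t + 1) - T (t + 1) t (y t - y' t)‖ ≤ η * (2 * r * (1 / 2) ^ N) := by
        intro t
        rw [hyH, hyH']
        refine (hH t (y t) (mem_closedBall_zero_iff.2 (hy t)) (y' t) (mem_closedBall_zero_iff.2 (hy' t))).trans ?_
        exact mul_le_mul_of_nonneg_left (ih t) hη.le
      have h2 := hb E K lam hK hl0 hl1 T P D (η * (2 * r * (1 / 2) ^ N)) (2 * r * (1 / 2) ^ N)
        (fun t => y (t + 1) - y' (t + 1) - T (t + 1) t (y t - y' t)) (fun t => y t - y' t) h1 ih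
        (fun t => by abel)
      intro t
      refine (h2 t).trans ?_
      have h3 : 0 ≤ 2 * r * (1 / 2 : ℝ) ^ N := by positivity
      calc 2 * K / (1 - lam) * (η * (2 * r * (1 / 2) ^ N)) = 2 * K / (1 - lam) * η * (2 * r * (1 / 2) ^ N) := by ring
        _ ≤ 1 / 2 * (2 * r * (1 / 2) ^ N) := mul_le_mul_of_nonneg_right hA h3
        _ = 2 * r * (1 / 2) ^ (N + 1) := by rw [pow_succ]; ring
  funext t
  have h1 : Tendsto (fun N : ℕ => 2 * r * (1 / 2 : ℝ) ^ N) atTop (𝓝 (2 * r * 0)) :=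
    (tendsto_pow_atTop_nhds_zero_of_lt_one (by norm_num) (by norm_num)).const_mul _
  rw [mul_zero] at h1
  have h2 : ‖y t - y' t‖ ≤ 0 := ge_of_tendsto' h1 fun N => key N t
  have h3 := norm_le_zero_iff.1 h2
  exact sub_eq_zero.1 h3

end

end Pool.Agent.Q87.CH
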